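import Pool.Agent.Helper578.Blocks

namespace Pool.Agent.Helper578

/-! ### Arithmetical definability of the block structure -/

lemma computablePred_eq {α β : Type} [Primcodable α] [Primcodable β] [DecidableEq β]
    {f g : α → β} (hf : Computable f) (hg : Computable g) :
    ComputablePred (fun x => f x = g x) := by
  have h : ComputablePred (fun p : β × β => p.1 = p.2) :=
    PrimrecPred.computablePred (PrimrecRel.comp Primrec.eq Primrec.fst Primrec.snd)
  exact computablePred_comp (hf.pair hg) h

lemma arith_eq {α β : Type} [Primcodable α] [Primcodable β] [DecidableEq β]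
    {f g : α → β} (hf : Computable f) (hg : Computable g) :
    Arith (fun x => f x = g x) := Arith.of_computablePred (computablePred_eq hf hg)

lemma arith_of_primrec {α : Type} [Primcodable α] {P : α → Prop} (h : PrimrecPred P) :
    Arith P := Arith.of_computablePred (PrimrecPred.computablePred h)

section General

variable {ι : Type} [Primcodable ι] [Inhabited ι] [DecidableEq ι]
  {dom inA : ι → Prop} {lt : ι → ι → Prop}

omit [DecidableEq ι] in
lemma arith_adj (h1 : Arith dom) (h3 : Arith (fun p : ι × ι => lt p.1 p.2)) :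
    Arith (fun p : ι × ι => Adj dom lt p.1 p.2) := by
  unfold Adj
  refine (h1.comp Computable.fst).and ((h1.comp Computable.snd).and (h3.and ?_))
  refine Arith.not ?_
  refine Arith.ex (R := fun q : (ι × ι) × ι => dom q.2 ∧ lt q.1.1 q.2 ∧ lt q.2 q.1.2) ?_
  refine (h1.comp Computable.snd).and (Arith.and ?_ ?_)
  · exact h3.comp ((Computable.fst.comp Computable.fst).pair Computable.snd)
  · exact h3.comp (Computable.snd.pair (Computable.snd.comp Computable.fst))

lemma arith_hasBlock (h1 : Arith dom) (h2 : Arith inA)
    (h3 : Arith (fun p : ι × ι => lt p.1 p.2)) : Arith (fun n : ℕ => HasBlock dom inA lt n) := by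
  have hadj := arith_adj h1 h3
  have hget : Computable₂ (fun (l : List ι) (i : ℕ) => l[i]?) := Primrec.list_getElem?.to_comp
  unfold HasBlock
  refine Arith.ex (R := fun q : ℕ × List ι => q.2.length = q.1 + 1 ∧
    (∀ (i : ℕ) (c : ι), q.2[i]? = some c → dom c ∧ inA c) ∧
    (∀ (i : ℕ) (c d : ι), q.2[i]? = some c → q.2[i + 1]? = some d → Adj dom lt c d) ∧
    (∀ c : ι, q.2[0]? = some c → ¬ ∃ d, Adj dom lt d c) ∧
    (∀ c : ι, q.2[q.1]? = some c → ¬ ∃ d, Adj dom lt c d)) ?_
  refine Arith.and ?_ (Arith.and ?_ (Arith.and ?_ (Arith.and ?_ ?_)))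
  · exact arith_eq (Computable.list_length.comp Computable.snd)
      (Computable.succ.comp Computable.fst)
  · refine Arith.all (R := fun p : (ℕ × List ι) × ℕ => ∀ c : ι, p.1.2[p.2]? = some c →
      dom c ∧ inA c) ?_
    refine Arith.all (R := fun p : ((ℕ × List ι) × ℕ) × ι => p.1.1.2[p.1.2]? = some p.2 →
      dom p.2 ∧ inA p.2) ?_
    refine Arith.imp ?_ ((h1.comp Computable.snd).and (h2.comp Computable.snd))
    refine arith_eq (hget.comp ?_ ?_) (Computable.option_some.comp Computable.snd)
    · exact Computable.snd.comp (Computable.fst.comp Computable.fst)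
    · exact Computable.snd.comp Computable.fst
  · refine Arith.all (R := fun p : (ℕ × List ι) × ℕ => ∀ c d : ι, p.1.2[p.2]? = some c →
      p.1.2[p.2 + 1]? = some d → Adj dom lt c d) ?_
    refine Arith.all (R := fun p : ((ℕ × List ι) × ℕ) × ι => ∀ d : ι, p.1.1.2[p.1.2]? = some p.2 →
      p.1.1.2[p.1.2 + 1]? = some d → Adj dom lt p.2 d) ?_
    refine Arith.all (R := fun p : (((ℕ × List ι) × ℕ) × ι) × ι =>
      p.1.1.1.2[p.1.1.2]? = some p.1.2 →
      p.1.1.1.2[p.1.1.2 + 1]? = some p.2 → Adj dom lt p.1.2 p.2) ?_
    refine Arith.imp ?_ (Arith.imp ?_ ?_)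
    · refine arith_eq (hget.comp ?_ ?_) (Computable.option_some.comp
        (Computable.snd.comp Computable.fst))
      · exact Computable.snd.comp (Computable.fst.comp (Computable.fst.comp Computable.fst))
      · exact Computable.snd.comp (Computable.fst.comp Computable.fst)
    · refine arith_eq (hget.comp ?_ (Computable.succ.comp ?_))
        (Computable.option_some.comp Computable.snd)
      · exact Computable.snd.comp (Computable.fst.comp (Computable.fst.comp Computable.fst))
      · exact Computable.snd.comp (Computable.fst.comp Computable.fst)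
    · exact hadj.comp ((Computable.snd.comp Computable.fst).pair Computable.snd)
  · refine Arith.all (R := fun p : (ℕ × List ι) × ι => p.1.2[0]? = some p.2 →
      ¬ ∃ d, Adj dom lt d p.2) ?_
    refine Arith.imp ?_ (Arith.not ?_)
    · exact arith_eq (hget.comp (Computable.snd.comp Computable.fst) (Computable.const 0))
        (Computable.option_some.comp Computable.snd)
    · refine Arith.ex (R := fun p : ((ℕ × List ι) × ι) × ι => Adj dom lt p.2 p.1.2) ?_
      exact hadj.comp (Computable.snd.pair (Computable.snd.comp Computable.fst))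
  · refine Arith.all (R := fun p : (ℕ × List ι) × ι => p.1.2[p.1.1]? = some p.2 →
      ¬ ∃ d, Adj dom lt p.2 d) ?_
    refine Arith.imp ?_ (Arith.not ?_)
    · exact arith_eq (hget.comp (Computable.snd.comp Computable.fst)
        (Computable.fst.comp Computable.fst)) (Computable.option_some.comp Computable.snd)
    · refine Arith.ex (R := fun p : ((ℕ × List ι) × ι) × ι => Adj dom lt p.1.2 p.2) ?_
      exact hadj.comp ((Computable.snd.comp Computable.fst).pair Computable.snd)

end General

/-! ### Paths through binary trees -/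

/-- Lexicographic comparison of binary sequences. -/
def BLt (g h : ℕ → Bool) : Prop := ∃ n, (∀ i < n, g i = h i) ∧ g n = false ∧ h n = true

lemma bLt_irrefl (g : ℕ → Bool) : ¬ BLt g g := by
  rintro ⟨n, _, h1, h2⟩
  rw [h1] at h2
  exact Bool.false_ne_true h2

lemma bLt_total {g h : ℕ → Bool} (hne : g ≠ h) : BLt g h ∨ BLt h g := by
  classical
  have hex : ∃ n, g n ≠ h n := by
    by_contra hcon
    push Not at hcon
    exact hne (funext hcon)
  have h1 := Nat.find_spec hex
  have h2 : ∀ i < Nat.find hex, g i = h i := fun i hi => not_not.1 (Nat.find_min hex hi)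
  rcases hg : g (Nat.find hex) <;> rcases hh : h (Nat.find hex)
  · exact absurd (hg.trans hh.symm) h1
  · exact Or.inl ⟨_, h2, hg, hh⟩
  · exact Or.inr ⟨_, fun i hi => (h2 i hi).symm, hh, hg⟩
  · exact absurd (hg.trans hh.symm) h1

lemma bLt_asymm {g h : ℕ → Bool} (h1 : BLt g h) : ¬ BLt h g := by
  rintro ⟨m, hm, hm1, hm2⟩
  obtain ⟨n, hn, hn1, hn2⟩ := h1
  rcases lt_trichotomy n m with h | h | h
  · have := hm n h
    rw [hn1, hn2] at this
    exact Bool.false_ne_true this.symm
  · subst h
    rw [hn1] at hm2
    exact Bool.false_ne_true hm2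
  · have := hn m h
    rw [hm1, hm2] at this
    exact Bool.false_ne_true this.symm

lemma pre_eq_pre {β : Type} {g h : ℕ → β} {n : ℕ} : pre g n = pre h n ↔ ∀ i < n, g i = h i := by
  constructor
  · intro hh i hi
    have h1 := pre_getElem? g hi
    have h2 := pre_getElem? h hi
    rw [hh, h2] at h1
    exact (Option.some.inj h1).symm
  · intro hh
    unfold pre
    exact List.map_congr_left fun i hi => hh i (List.mem_range.1 hi)

lemma pre_take {β : Type} (g : ℕ → β) {m n : ℕ} (h : m ≤ n) : (pre g n).take m = pre g m := by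
  unfold pre
  rw [← List.map_take, List.take_range, min_eq_left h]

lemma pre_split {β : Type} {g : ℕ → β} {n : ℕ} {ρ : List β} {b : β} {τ : List β}
    (h : pre g n = ρ ++ b :: τ) : pre g ρ.length = ρ ∧ g ρ.length = b := by
  have hlen : ρ.length < n := by
    have := congrArg List.length h
    simp at this
    omega
  constructor
  · rw [← pre_take g hlen.le, h]; simp
  · have h1 := pre_getElem? g hlen
    rw [h] at h1
    simpa using h1.symm

lemma pre_prefix {β : Type} {g : ℕ → β} {n : ℕ} {ρ τ : List β}
    (h : pre g n = ρ ++ τ) : pre g ρ.length = ρ := by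
  have hlen : ρ.length ≤ n := by
    have := congrArg List.length h
    simp at this
    omega
  rw [← pre_take g hlen, h]; simp

lemma pre_append_drop {β : Type} {g : ℕ → β} {n : ℕ} {ρ : List β} (h : pre g ρ.length = ρ)
    (hn : ρ.length ≤ n) : ρ ++ (pre g n).drop ρ.length = pre g n := by
  conv_rhs => rw [← List.take_append_drop ρ.length (pre g n)]
  rw [pre_take g hn, h]

lemma pre_cons_drop {β : Type} (g : ℕ → β) {m n : ℕ} (hn : m < n) :
    ∃ τ, pre g n = pre g m ++ g m :: τ := by
  refine ⟨(pre g n).drop (m + 1), ?_⟩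
  have h1 := pre_append_drop (g := g) (n := n) (ρ := pre g (m + 1)) (by simp) (by simpa using hn)
  rw [pre_length, pre_succ, List.append_assoc, List.singleton_append] at h1
  exact h1.symm

/-- `g` is a path of `T`. -/
def IsPath (T : Set (List Bool)) (g : ℕ → Bool) : Prop := ∀ n, pre g n ∈ T

/-- Without dead ends, every node lies on a path. -/
lemma exists_path {T : Set (List Bool)} (hTp : ∀ σ τ : List Bool, σ ++ τ ∈ T → σ ∈ T)
    (hTe : ∀ σ ∈ T, ∃ b : Bool, σ ++ [b] ∈ T) {σ : List Bool} (hσ : σ ∈ T) :
    ∃ g, IsPath T g ∧ pre g σ.length = σ := by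
  classical
  choose! b hb using hTe
  let c : List Bool → Bool := fun τ => (σ[τ.length]?).getD (b τ)
  let F : ℕ → List Bool := fun n => Nat.rec [] (fun _ τ => τ ++ [c τ]) n
  have hF0 : F 0 = [] := rfl
  have hFs : ∀ n, F (n + 1) = F n ++ [c (F n)] := fun n => rfl
  have hFl : ∀ n, (F n).length = n := by
    intro n
    induction n with
    | zero => rfl
    | succ n ih => rw [hFs]; simp [ih]
  let g : ℕ → Bool := fun n => c (F n)
  have hg : ∀ n, pre g n = F n := by
    intro n
    induction n with
    | zero => rfl
    | succ n ih => rw [pre_succ, ih, hFs]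
  have hsmall : ∀ n, n ≤ σ.length → F n = σ.take n := by
    intro n
    induction n with
    | zero => intro _; simp [hF0]
    | succ n ih =>
      intro hn
      rw [hFs, ih (by omega)]
      have hlen : (σ.take n).length = n := by simp; omega
      have : c (σ.take n) = σ[n]'(by omega) := by
        simp only [c, hlen]
        rw [List.getElem?_eq_getElem (by omega)]; rfl
      rw [this, List.take_succ_eq_append_getElem (by omega)]
  have hmem : ∀ n, F n ∈ T := by
    intro n
    rcases le_or_gt n σ.length with h | h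
    · rw [hsmall n h]
      refine hTp _ (σ.drop n) ?_
      rw [List.take_append_drop]; exact hσ
    · induction n, h using Nat.le_induction with
      | base =>
        have h1 : F σ.length = σ := by rw [hsmall _ le_rfl]; simp
        rw [Nat.succ_eq_add_one, hFs, h1]
        have : c σ = b σ := by simp [c]
        rw [this]; exact hb σ hσ
      | succ n hn ih =>
        rw [hFs]
        have : c (F n) = b (F n) := by
          simp only [c, hFl]
          rw [List.getElem?_eq_none (by omega)]; rfl
        rw [this]; exact hb _ ih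
  refine ⟨g, fun n => by rw [hg]; exact hmem n, ?_⟩
  rw [hg, hsmall _ le_rfl]; simp

/-- Nodes above which the tree does not branch. -/
def Node (T : Set (List Bool)) (σ : List Bool) : Prop :=
  σ ∈ T ∧ ∀ τ : List Bool, ¬ (σ ++ τ ++ [false] ∈ T ∧ σ ++ τ ++ [true] ∈ T)

lemma node_unique {T : Set (List Bool)} {σ : List Bool} (hσ : Node T σ) {g h : ℕ → Bool}
    (hg : IsPath T g) (hh : IsPath T h) (hgσ : pre g σ.length = σ) (hhσ : pre h σ.length = σ) :
    g = h := by
  by_contra hne
  have key : ∀ g h : ℕ → Bool, IsPath T g → IsPath T h → pre g σ.length = σ →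
      pre h σ.length = σ → ¬ BLt g h := by
    rintro g h hg hh hgσ hhσ ⟨n, hn, hn1, hn2⟩
    have hle : σ.length ≤ n := by
      by_contra hlt
      have := pre_eq_pre.1 (hgσ.trans hhσ.symm) n (not_le.1 hlt)
      rw [hn1, hn2] at this
      exact Bool.false_ne_true this
    refine hσ.2 ((pre g n).drop σ.length) ⟨?_, ?_⟩
    · rw [pre_append_drop hgσ hle, ← hn1, ← pre_succ]; exact hg _
    · rw [pre_append_drop hgσ hle, pre_eq_pre.2 hn, ← hn2, ← pre_succ]; exact hh _
  rcases bLt_total hne with h1 | h1
  · exact key g h hg hh hgσ hhσ h1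
  · exact key h g hh hg hhσ hgσ h1

/-- Comparison of nodes of a tree through extensions. -/
def LT (T : Set (List Bool)) (σ τ : List Bool) : Prop :=
  ∃ σ' τ' : List Bool, σ ++ σ' ∈ T ∧ τ ++ τ' ∈ T ∧
    ∃ ρ a b : List Bool, σ ++ σ' = ρ ++ false :: a ∧ τ ++ τ' = ρ ++ true :: b

/-- The node is not to the right of the path `z`. -/
def InAN (T : Set (List Bool)) (z : ℕ → Bool) (σ : List Bool) : Prop :=
  ¬ ∃ σ' ρ a : List Bool, σ ++ σ' ∈ T ∧ σ ++ σ' = ρ ++ true :: a ∧
    (∀ (i : ℕ) (b : Bool), ρ[i]? = some b → z i = b) ∧ z ρ.length = false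

lemma arith_node {T : Set (List Bool)} (hT : ComputablePred (fun σ : List Bool => σ ∈ T)) :
    Arith (fun σ => Node T σ) := by
  have hTa : Arith (fun σ : List Bool => σ ∈ T) := Arith.of_computablePred hT
  have happ : Computable₂ (fun (a b : List Bool) => a ++ b) := Primrec.list_append.to_comp
  unfold Node
  refine hTa.and ?_
  refine Arith.all (R := fun p : List Bool × List Bool =>
    ¬ (p.1 ++ p.2 ++ [false] ∈ T ∧ p.1 ++ p.2 ++ [true] ∈ T)) (Arith.not (Arith.and ?_ ?_))
  · exact hTa.comp (happ.comp (happ.comp Computable.fst Computable.snd) (Computable.const [false]))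
  · exact hTa.comp (happ.comp (happ.comp Computable.fst Computable.snd) (Computable.const [true]))

lemma arith_LT {T : Set (List Bool)} (hT : ComputablePred (fun σ : List Bool => σ ∈ T)) :
    Arith (fun p : List Bool × List Bool => LT T p.1 p.2) := by
  have hTa : Arith (fun σ : List Bool => σ ∈ T) := Arith.of_computablePred hT
  have happ : Computable₂ (fun (a b : List Bool) => a ++ b) := Primrec.list_append.to_comp
  have hcons : Computable₂ (fun (a : Bool) (b : List Bool) => a :: b) := Primrec.list_cons.to_comp
  unfold LT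
  refine Arith.ex (R := fun p : (List Bool × List Bool) × List Bool => ∃ τ' : List Bool,
    p.1.1 ++ p.2 ∈ T ∧ p.1.2 ++ τ' ∈ T ∧
    ∃ ρ a b : List Bool, p.1.1 ++ p.2 = ρ ++ false :: a ∧ p.1.2 ++ τ' = ρ ++ true :: b) ?_
  refine Arith.ex (R := fun p : ((List Bool × List Bool) × List Bool) × List Bool =>
    p.1.1.1 ++ p.1.2 ∈ T ∧ p.1.1.2 ++ p.2 ∈ T ∧
    ∃ ρ a b : List Bool, p.1.1.1 ++ p.1.2 = ρ ++ false :: a ∧ p.1.1.2 ++ p.2 = ρ ++ true :: b) ?_
  have c1 : Computable (fun p : ((List Bool × List Bool) × List Bool) × List Bool =>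
      p.1.1.1 ++ p.1.2) :=
    happ.comp (Computable.fst.comp (Computable.fst.comp Computable.fst))
      (Computable.snd.comp Computable.fst)
  have c2 : Computable (fun p : ((List Bool × List Bool) × List Bool) × List Bool =>
      p.1.1.2 ++ p.2) :=
    happ.comp (Computable.snd.comp (Computable.fst.comp Computable.fst)) Computable.snd
  refine Arith.and (hTa.comp c1) (Arith.and (hTa.comp c2) ?_)
  have key : Arith (fun q : List Bool × List Bool =>
      ∃ ρ a b : List Bool, q.1 = ρ ++ false :: a ∧ q.2 = ρ ++ true :: b) := by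
    refine Arith.ex (R := fun q : (List Bool × List Bool) × List Bool =>
      ∃ a b : List Bool, q.1.1 = q.2 ++ false :: a ∧ q.1.2 = q.2 ++ true :: b) ?_
    refine Arith.ex (R := fun q : ((List Bool × List Bool) × List Bool) × List Bool =>
      ∃ b : List Bool, q.1.1.1 = q.1.2 ++ false :: q.2 ∧ q.1.1.2 = q.1.2 ++ true :: b) ?_
    refine Arith.ex (R := fun q : (((List Bool × List Bool) × List Bool) × List Bool) × List Bool =>
      q.1.1.1.1 = q.1.1.2 ++ false :: q.1.2 ∧ q.1.1.1.2 = q.1.1.2 ++ true :: q.2) ?_
    refine Arith.and (arith_eq ?_ (happ.comp ?_ (hcons.comp (Computable.const false) ?_)))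
      (arith_eq ?_ (happ.comp ?_ (hcons.comp (Computable.const true) ?_)))
    · exact Computable.fst.comp (Computable.fst.comp (Computable.fst.comp Computable.fst))
    · exact Computable.snd.comp (Computable.fst.comp Computable.fst)
    · exact Computable.snd.comp Computable.fst
    · exact Computable.snd.comp (Computable.fst.comp (Computable.fst.comp Computable.fst))
    · exact Computable.snd.comp (Computable.fst.comp Computable.fst)
    · exact Computable.snd
  exact key.comp (c1.pair c2)

lemma arith_InAN {T : Set (List Bool)} (hT : ComputablePred (fun σ : List Bool => σ ∈ T))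
    {z : ℕ → Bool} (hz : Computable z) : Arith (fun σ => InAN T z σ) := by
  have hTa : Arith (fun σ : List Bool => σ ∈ T) := Arith.of_computablePred hT
  have happ : Computable₂ (fun (a b : List Bool) => a ++ b) := Primrec.list_append.to_comp
  have hcons : Computable₂ (fun (a : Bool) (b : List Bool) => a :: b) := Primrec.list_cons.to_comp
  unfold InAN
  refine Arith.not ?_
  refine Arith.ex (R := fun p : List Bool × List Bool => ∃ ρ a : List Bool,
    p.1 ++ p.2 ∈ T ∧ p.1 ++ p.2 = ρ ++ true :: a ∧
    (∀ (i : ℕ) (b : Bool), ρ[i]? = some b → z i = b) ∧ z ρ.length = false) ?_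
  refine Arith.ex (R := fun p : (List Bool × List Bool) × List Bool => ∃ a : List Bool,
    p.1.1 ++ p.1.2 ∈ T ∧ p.1.1 ++ p.1.2 = p.2 ++ true :: a ∧
    (∀ (i : ℕ) (b : Bool), p.2[i]? = some b → z i = b) ∧ z p.2.length = false) ?_
  refine Arith.ex (R := fun p : ((List Bool × List Bool) × List Bool) × List Bool =>
    p.1.1.1 ++ p.1.1.2 ∈ T ∧ p.1.1.1 ++ p.1.1.2 = p.1.2 ++ true :: p.2 ∧
    (∀ (i : ℕ) (b : Bool), p.1.2[i]? = some b → z i = b) ∧ z p.1.2.length = false) ?_
  have c1 : Computable (fun p : ((List Bool × List Bool) × List Bool) × List Bool =>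
      p.1.1.1 ++ p.1.1.2) :=
    happ.comp (Computable.fst.comp (Computable.fst.comp Computable.fst))
      (Computable.snd.comp (Computable.fst.comp Computable.fst))
  refine Arith.and (hTa.comp c1) (Arith.and ?_ (Arith.and ?_ ?_))
  · exact arith_eq c1 (happ.comp (Computable.snd.comp Computable.fst)
      (hcons.comp (Computable.const true) Computable.snd))
  · have key : Arith (fun ρ : List Bool => ∀ (i : ℕ) (b : Bool), ρ[i]? = some b → z i = b) := by
      refine Arith.all (R := fun p : List Bool × ℕ => ∀ b : Bool, p.1[p.2]? = some b →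
        z p.2 = b) ?_
      refine Arith.all (R := fun p : (List Bool × ℕ) × Bool => p.1.1[p.1.2]? = some p.2 →
        z p.1.2 = p.2) ?_
      refine Arith.imp (arith_eq ?_ (Computable.option_some.comp Computable.snd))
        (arith_eq (hz.comp (Computable.snd.comp Computable.fst)) Computable.snd)
      exact (Primrec.list_getElem?.comp (Primrec.fst.comp Primrec.fst)
        (Primrec.snd.comp Primrec.fst)).to_comp
    exact key.comp (Computable.snd.comp Computable.fst)
  · exact arith_eq (hz.comp (Computable.list_length.comp (Computable.snd.comp Computable.fst)))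
      (Computable.const false)

end Pool.Agent.Helper578
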