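import Mathlib

namespace Pool.Agent.Helper578

set_option linter.unusedVariables false

open Nat.Partrec (Code)

/-- The levels of a hierarchy of arithmetical predicates: computable predicates at level 0,
and at level `k+1` the predicates `∃ a, ¬ Q (x, a)` with `Q` at level `k`. -/
def Sig : ℕ → ∀ {α : Type} [Primcodable α], (α → Prop) → Prop
  | 0, _, _, P => ComputablePred P
  | k + 1, α, _, P => ∃ Q : α × ℕ → Prop, Sig k Q ∧ ∀ x, P x ↔ ∃ a, ¬ Q (x, a)

/-- Arithmetical predicates. -/
def Arith {α : Type} [Primcodable α] (P : α → Prop) : Prop := ∃ k, Sig k P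

lemma computablePred_comp {α β : Type} [Primcodable α] [Primcodable β] {P : β → Prop}
    {g : α → β} (hg : Computable g) (hP : ComputablePred P) :
    ComputablePred (fun x => P (g x)) := by
  classical
  obtain ⟨f, hf, rfl⟩ := ComputablePred.computable_iff.1 hP
  exact ComputablePred.computable_iff.2 ⟨fun x => f (g x), hf.comp hg, rfl⟩

lemma sig_comp : ∀ (k : ℕ) {α β : Type} [Primcodable α] [Primcodable β] {P : β → Prop}
    {g : α → β}, Computable g → Sig k P → Sig k (fun x => P (g x))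
  | 0, _, _, _, _, _, _, hg, hP => computablePred_comp hg hP
  | k + 1, α, β, _, _, P, g, hg, ⟨Q, hQ, hPQ⟩ =>
    ⟨fun p => Q (g p.1, p.2), sig_comp k ((hg.comp Computable.fst).pair Computable.snd) hQ,
      fun x => hPQ (g x)⟩

lemma sig_congr {k : ℕ} {α : Type} [Primcodable α] {P Q : α → Prop} (h : ∀ x, P x ↔ Q x)
    (hP : Sig k P) : Sig k Q := by
  have : P = Q := funext fun x => propext (h x)
  rwa [← this]

lemma computablePred_and {α : Type} [Primcodable α] {P Q : α → Prop} (hP : ComputablePred P)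
    (hQ : ComputablePred Q) : ComputablePred (fun x => P x ∧ Q x) := by
  classical
  obtain ⟨f, hf, rfl⟩ := ComputablePred.computable_iff.1 hP
  obtain ⟨g, hg, rfl⟩ := ComputablePred.computable_iff.1 hQ
  refine ComputablePred.computable_iff.2 ⟨fun x => f x && g x,
    (Primrec.and.to_comp).comp hf hg, ?_⟩
  funext x; simp

lemma computablePred_or {α : Type} [Primcodable α] {P Q : α → Prop} (hP : ComputablePred P)
    (hQ : ComputablePred Q) : ComputablePred (fun x => P x ∨ Q x) := by
  classical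
  obtain ⟨f, hf, rfl⟩ := ComputablePred.computable_iff.1 hP
  obtain ⟨g, hg, rfl⟩ := ComputablePred.computable_iff.1 hQ
  refine ComputablePred.computable_iff.2 ⟨fun x => f x || g x,
    (Primrec.or.to_comp).comp hf hg, ?_⟩
  funext x; simp

lemma computablePred_not {α : Type} [Primcodable α] {P : α → Prop} (hP : ComputablePred P) :
    ComputablePred (fun x => ¬ P x) := hP.not

lemma sig_and_or : ∀ (k : ℕ) {α : Type} [Primcodable α] {P Q : α → Prop}, Sig k P → Sig k Q →
    Sig k (fun x => P x ∧ Q x) ∧ Sig k (fun x => P x ∨ Q x)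
  | 0, _, _, _, _, hP, hQ => ⟨computablePred_and hP hQ, computablePred_or hP hQ⟩
  | k + 1, α, _, P, Q, ⟨P', hP', hP⟩, ⟨Q', hQ', hQ⟩ => by
    constructor
    · refine ⟨fun p => P' (p.1, p.2.unpair.1) ∨ Q' (p.1, p.2.unpair.2), ?_, ?_⟩
      · refine (sig_and_or k ?_ ?_).2
        · exact sig_comp k (g := fun p : α × ℕ => (p.1, p.2.unpair.1))
            (Computable.fst.pair (Computable.fst.comp (Computable.unpair.comp Computable.snd))) hP'
        · exact sig_comp k (g := fun p : α × ℕ => (p.1, p.2.unpair.2))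
            (Computable.fst.pair (Computable.snd.comp (Computable.unpair.comp Computable.snd))) hQ'
      · intro x
        simp only [hP x, hQ x]
        constructor
        · rintro ⟨⟨a, ha⟩, ⟨b, hb⟩⟩
          refine ⟨Nat.pair a b, ?_⟩
          simp only [Nat.unpair_pair]
          tauto
        · rintro ⟨c, hc⟩
          push Not at hc
          exact ⟨⟨_, hc.1⟩, ⟨_, hc.2⟩⟩
    · refine ⟨fun p => P' p ∧ Q' p, (sig_and_or k hP' hQ').1, ?_⟩
      intro x
      simp only [hP x, hQ x]
      constructor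
      · rintro (⟨a, ha⟩ | ⟨a, ha⟩)
        · exact ⟨a, fun h => ha h.1⟩
        · exact ⟨a, fun h => ha h.2⟩
      · rintro ⟨a, ha⟩
        by_cases h : P' (x, a)
        · exact Or.inr ⟨a, fun h' => ha ⟨h, h'⟩⟩
        · exact Or.inl ⟨a, h⟩

lemma sig_succ : ∀ (k : ℕ) {α : Type} [Primcodable α] {P : α → Prop}, Sig k P → Sig (k + 1) P
  | 0, α, _, P, hP => by
    refine ⟨fun p => ¬ P p.1, computablePred_not (computablePred_comp Computable.fst hP), ?_⟩
    intro x; simp
  | k + 1, α, _, P, ⟨Q, hQ, hPQ⟩ => ⟨Q, sig_succ k hQ, hPQ⟩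

lemma sig_mono {k l : ℕ} (h : k ≤ l) {α : Type} [Primcodable α] {P : α → Prop} (hP : Sig k P) :
    Sig l P := by
  induction l, h using Nat.le_induction with
  | base => exact hP
  | succ l _ ih => exact sig_succ l ih

lemma sig_not {k : ℕ} {α : Type} [Primcodable α] {P : α → Prop} (hP : Sig k P) :
    Sig (k + 1) (fun x => ¬ P x) := by
  refine ⟨fun p => P p.1, sig_comp k Computable.fst hP, ?_⟩
  intro x; simp

namespace Arith

variable {α β : Type} [Primcodable α] [Primcodable β] {P Q : α → Prop}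

lemma of_computablePred (h : ComputablePred P) : Arith P := ⟨0, h⟩

lemma congr (h : ∀ x, P x ↔ Q x) (hP : Arith P) : Arith Q := by
  obtain ⟨k, hk⟩ := hP
  exact ⟨k, sig_congr h hk⟩

lemma comp {R : β → Prop} {g : α → β} (hR : Arith R) (hg : Computable g) :
    Arith (fun x => R (g x)) := by
  obtain ⟨k, hk⟩ := hR
  exact ⟨k, sig_comp k hg hk⟩

lemma and (hP : Arith P) (hQ : Arith Q) : Arith (fun x => P x ∧ Q x) := by
  obtain ⟨k, hk⟩ := hP
  obtain ⟨l, hl⟩ := hQ
  exact ⟨max k l, (sig_and_or _ (sig_mono (le_max_left k l) hk)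
    (sig_mono (le_max_right k l) hl)).1⟩

lemma or (hP : Arith P) (hQ : Arith Q) : Arith (fun x => P x ∨ Q x) := by
  obtain ⟨k, hk⟩ := hP
  obtain ⟨l, hl⟩ := hQ
  exact ⟨max k l, (sig_and_or _ (sig_mono (le_max_left k l) hk)
    (sig_mono (le_max_right k l) hl)).2⟩

lemma not (hP : Arith P) : Arith (fun x => ¬ P x) := by
  obtain ⟨k, hk⟩ := hP
  exact ⟨k + 1, sig_not hk⟩

lemma imp (hP : Arith P) (hQ : Arith Q) : Arith (fun x => P x → Q x) :=
  congr (fun x => by tauto) (hP.not.or hQ)

lemma exNat {R : α × ℕ → Prop} (hR : Arith R) : Arith (fun x => ∃ n, R (x, n)) := by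
  obtain ⟨k, hk⟩ := hR
  exact ⟨k + 2, ⟨fun p => ¬ R p, sig_not hk, fun x => by simp⟩⟩

lemma ex [Inhabited β] {R : α × β → Prop} (hR : Arith R) : Arith (fun x => ∃ b, R (x, b)) := by
  have hg : Computable (fun p : α × ℕ => (p.1, (Encodable.decode (α := β) p.2).getD default)) :=
    Computable.fst.pair (Computable.option_getD (Computable.decode.comp Computable.snd)
      (Computable.const default))
  refine congr ?_ (exNat (hR.comp hg))
  intro x
  constructor
  · rintro ⟨n, hn⟩; exact ⟨_, hn⟩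
  · rintro ⟨b, hb⟩
    refine ⟨Encodable.encode b, ?_⟩
    simpa using hb

lemma all [Inhabited β] {R : α × β → Prop} (hR : Arith R) : Arith (fun x => ∀ b, R (x, b)) :=
  congr (fun x => by simp) (ex hR.not).not

end Arith

/-- The base relation: the code `e` does not halt on input `u` within `s` steps,
where `y` codes the pair `(u, s)`. -/
def Base (e y : ℕ) : Prop :=
  (Denumerable.ofNat Code e).evaln y.unpair.2 y.unpair.1 = none

/-- Uniform truth predicates for all levels. -/
def Tr (e : ℕ) : ℕ → ℕ → Prop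
  | 0, y => Base e y
  | j + 1, x => ∃ a, ¬ Tr e j (Nat.pair x a)

lemma tr_one (e u : ℕ) : Tr e 1 u ↔ ((Denumerable.ofNat Code e).eval u).Dom := by
  simp only [Tr, Base, Nat.unpair_pair]
  constructor
  · rintro ⟨s, hs⟩
    obtain ⟨v, hv⟩ := Option.ne_none_iff_exists'.1 hs
    exact Part.dom_iff_mem.2 ⟨v, Nat.Partrec.Code.evaln_complete.2 ⟨s, by rw [hv]; rfl⟩⟩
  · intro h
    obtain ⟨v, hv⟩ := Part.dom_iff_mem.1 h
    obtain ⟨s, hs⟩ := Nat.Partrec.Code.evaln_complete.1 hv
    exact ⟨s, by rw [Option.mem_def.1 hs]; simp⟩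

lemma universal_one {α : Type} [Primcodable α] {P : α → Prop} (hP : Sig 1 P) :
    ∃ e, ∀ x : α, P x ↔ Tr e 1 (Encodable.encode x) := by
  classical
  obtain ⟨Q, hQ, hPQ⟩ := hP
  obtain ⟨f, hf, rfl⟩ := ComputablePred.computable_iff.1 hQ
  have hpart : Partrec (fun x : α => Nat.rfind fun a => Part.some (!f (x, a))) := by
    refine Partrec.rfind ?_
    exact ((Primrec.not.to_comp).comp hf).partrec
  obtain ⟨c, hc⟩ := Nat.Partrec.Code.exists_code.1 hpart
  refine ⟨Encodable.encode c, fun x => ?_⟩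
  rw [tr_one, Denumerable.ofNat_encode, hc, hPQ x]
  simp only [Encodable.encodek, Part.coe_some, Part.bind_some, Part.map_Dom]
  constructor
  · rintro ⟨a, ha⟩
    simp only [Bool.not_eq_true] at ha
    exact Nat.rfind_dom.2 ⟨a, by simp [ha], fun _ => trivial⟩
  · intro h
    obtain ⟨a, ha, _⟩ := Nat.rfind_dom.1 h
    refine ⟨a, ?_⟩
    simpa using ha

lemma universal : ∀ (j : ℕ) {α : Type} [Primcodable α] {P : α → Prop}, Sig (j + 1) P →
    ∃ e, ∀ x : α, P x ↔ Tr e (j + 1) (Encodable.encode x)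
  | 0, _, _, _, hP => universal_one hP
  | j + 1, α, _, P, ⟨Q, hQ, hPQ⟩ => by
    obtain ⟨e, he⟩ := universal j hQ
    refine ⟨e, fun x => ?_⟩
    rw [hPQ x]
    simp only [he]
    rfl

theorem not_arith_tr : ¬ Arith (fun p : ℕ × ℕ × ℕ => Tr p.1 p.2.1 p.2.2) := by
  rintro ⟨k, hk⟩
  have hD : Sig (k + 1) (fun x : ℕ => ¬ Tr x (k + 1) x) := by
    have := sig_comp k (g := fun x : ℕ => (x, k + 1, x))
      (Computable.id.pair ((Computable.const (k + 1)).pair Computable.id)) hk
    exact sig_not this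
  obtain ⟨e, he⟩ := universal k hD
  have := he e
  simp only [Encodable.encode_nat] at this
  tauto

end Pool.Agent.Helper578
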