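import Pool.Agent.Helper578.Order

namespace Pool.Agent.Helper578

/-- Adjacency in an order given by a domain predicate and a relation. -/
def Adj {ι : Type} (dom : ι → Prop) (lt : ι → ι → Prop) (c d : ι) : Prop :=
  dom c ∧ dom d ∧ lt c d ∧ ¬ ∃ w, dom w ∧ lt c w ∧ lt w d

/-- There is a maximal finite block with exactly `n + 1` elements, all of them in `inA`. -/
def HasBlock {ι : Type} (dom inA : ι → Prop) (lt : ι → ι → Prop) (n : ℕ) : Prop :=
  ∃ l : List ι, l.length = n + 1 ∧ (∀ (i : ℕ) (c : ι), l[i]? = some c → dom c ∧ inA c) ∧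
    (∀ (i : ℕ) (c d : ι), l[i]? = some c → l[i + 1]? = some d → Adj dom lt c d) ∧
    (∀ c : ι, l[0]? = some c → ¬ ∃ d, Adj dom lt d c) ∧
    (∀ c : ι, l[n]? = some c → ¬ ∃ d, Adj dom lt c d)

/-- Block structure transfers along a correspondence of orders. -/
lemma hasBlock_transfer {ι κ : Type} {dom inA : ι → Prop} {lt : ι → ι → Prop}
    {dom' inA' : κ → Prop} {lt' : κ → κ → Prop} {Rep : ι → κ → Prop}
    (h1 : ∀ c, dom c → ∃ x, Rep c x) (h2 : ∀ x, dom' x → ∃ c, Rep c x)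
    (h3 : ∀ c x, Rep c x → dom c ∧ dom' x ∧ (inA c ↔ inA' x))
    (h4 : ∀ c x d y, Rep c x → Rep d y → (lt c d ↔ lt' x y)) {n : ℕ}
    (h : HasBlock dom inA lt n) : HasBlock dom' inA' lt' n := by
  classical
  have hadj : ∀ c x d y, Rep c x → Rep d y → (Adj dom lt c d ↔ Adj dom' lt' x y) := by
    intro c x d y hc hd
    unfold Adj
    have a1 := h3 c x hc
    have a2 := h3 d y hd
    have a3 := h4 c x d y hc hd
    constructor
    · rintro ⟨_, _, b3, b4⟩
      refine ⟨a1.2.1, a2.2.1, a3.1 b3, ?_⟩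
      rintro ⟨w, w1, w2, w3⟩
      obtain ⟨v, hv⟩ := h2 w w1
      exact b4 ⟨v, (h3 v w hv).1, (h4 _ _ _ _ hc hv).2 w2, (h4 _ _ _ _ hv hd).2 w3⟩
    · rintro ⟨_, _, b3, b4⟩
      refine ⟨a1.1, a2.1, a3.2 b3, ?_⟩
      rintro ⟨w, w1, w2, w3⟩
      obtain ⟨v, hv⟩ := h1 w w1
      exact b4 ⟨v, (h3 w v hv).2.1, (h4 _ _ _ _ hc hv).1 w2, (h4 _ _ _ _ hv hd).1 w3⟩
  obtain ⟨l, hl, hl1, hl2, hl3, hl4⟩ := h
  have hne : Nonempty κ := by
    obtain ⟨x, _⟩ := h1 _ (hl1 0 (l[0]'(by omega)) (List.getElem?_eq_getElem (by omega))).1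
    exact ⟨x⟩
  let φ : ι → κ := fun c => if hc : ∃ x, Rep c x then hc.choose else hne.some
  have hφ : ∀ c, dom c → Rep c (φ c) := by
    intro c hc
    have hex := h1 c hc
    simp only [φ]; rw [dif_pos hex]; exact hex.choose_spec
  have hget : ∀ (i : ℕ) (x : κ), (l.map φ)[i]? = some x → ∃ c : ι, l[i]? = some c ∧ x = φ c ∧ Rep c x ∧
      dom c ∧ inA c := by
    intro i x hx
    rw [List.getElem?_map] at hx
    rcases hc : l[i]? with _ | c
    · rw [hc] at hx; simp at hx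
    · rw [hc] at hx
      simp only [Option.map_some, Option.some.injEq] at hx
      have h5 := hl1 i c hc
      exact ⟨c, rfl, hx.symm, by rw [← hx]; exact hφ c h5.1, h5⟩
  refine ⟨l.map φ, by simpa using hl, ?_, ?_, ?_, ?_⟩
  · intro i x hx
    obtain ⟨c, _, _, hc, _, hA⟩ := hget i x hx
    have := h3 c x hc
    exact ⟨this.2.1, this.2.2.1 hA⟩
  · intro i x y hx hy
    obtain ⟨c, hc1, _, hc, _, _⟩ := hget i x hx
    obtain ⟨d, hd1, _, hd, _, _⟩ := hget (i + 1) y hy
    exact (hadj _ _ _ _ hc hd).1 (hl2 i c d hc1 hd1)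
  · rintro x hx ⟨y, hy⟩
    obtain ⟨c, hc1, _, hc, _, _⟩ := hget 0 x hx
    obtain ⟨d, hd⟩ := h2 y hy.1
    exact hl3 c hc1 ⟨d, (hadj _ _ _ _ hd hc).2 hy⟩
  · rintro x hx ⟨y, hy⟩
    obtain ⟨c, hc1, _, hc, _, _⟩ := hget n x hx
    obtain ⟨d, hd⟩ := h2 y hy.2.1
    exact hl4 c hc1 ⟨d, (hadj _ _ _ _ hc hd).2 hy⟩

/-- The cut of the order at the path `wit`. -/
def InAE (e : E) : Prop := LexLt (pad e.1) (fun i => wit i + 1)

lemma ltE_same {σ : List ℕ} {p q : ℕ × ℕ} : LtE (σ, p) (σ, q) ↔ LtP p q := by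
  unfold LtE
  simp [lexLt_irrefl]

/-- An element between two elements of the same block lies in that block. -/
lemma between_same {σ : List ℕ} {p q : ℕ × ℕ} {w : E} (h1 : LtE (σ, p) w) (h2 : LtE w (σ, q)) :
    w.1 = σ ∧ LtP p w.2 ∧ LtP w.2 q := by
  have hw : w.1 = σ := by
    by_contra hne
    have h3 : LexLt (pad σ) (pad w.1) := by
      rcases h1 with h | ⟨h, _⟩
      · exact h
      · exact absurd h.symm hne
    have h4 : LexLt (pad w.1) (pad σ) := by
      rcases h2 with h | ⟨h, _⟩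
      · exact h
      · exact absurd h hne
    exact lexLt_asymm h3 h4
  obtain ⟨w1, w2⟩ := w
  simp only at hw
  subst hw
  exact ⟨rfl, ltE_same.1 h1, ltE_same.1 h2⟩

lemma adj_same {σ : List ℕ} {p q : ℕ × ℕ} (hp : ValidE (σ, p)) (hq : ValidE (σ, q))
    (hpq : LtP p q) (hno : ∀ r, ValidE (σ, r) → ¬ (LtP p r ∧ LtP r q)) :
    Adj ValidE LtE (σ, p) (σ, q) := by
  refine ⟨hp, hq, ltE_same.2 hpq, ?_⟩
  rintro ⟨w, hw, h1, h2⟩
  obtain ⟨rfl, h3, h4⟩ := between_same h1 h2
  exact hno w.2 hw ⟨h3, h4⟩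

lemma adj_part0 {σ : List ℕ} (hσ : σ ∈ STree) (i : ℕ) :
    Adj ValidE LtE (σ, 0, i) (σ, 0, i + 1) := by
  refine adj_same ⟨hσ, by simp, by simp⟩ ⟨hσ, by simp, by simp⟩ (by simp [LtP]) ?_
  rintro ⟨t, j⟩ _ ⟨h1, h2⟩
  unfold LtP at h1 h2
  simp only at h1 h2
  omega

lemma adj_part1 {σ : List ℕ} (hσ : σ ∈ STree) {i : ℕ} (hi : i + 1 ≤ Encodable.encode σ) :
    Adj ValidE LtE (σ, 1, i) (σ, 1, i + 1) := by
  refine adj_same ⟨hσ, by simp, fun _ => ?_⟩ ⟨hσ, by simp, fun _ => hi⟩ (by simp [LtP]) ?_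
  · change i ≤ Encodable.encode σ; omega
  rintro ⟨t, j⟩ _ ⟨h1, h2⟩
  unfold LtP at h1 h2
  simp only at h1 h2
  omega

lemma adj_part2 {σ : List ℕ} (hσ : σ ∈ STree) (i : ℕ) :
    Adj ValidE LtE (σ, 2, i + 1) (σ, 2, i) := by
  refine adj_same ⟨hσ, by simp, by simp⟩ ⟨hσ, by simp, by simp⟩ (by simp [LtP]) ?_
  rintro ⟨t, j⟩ _ ⟨h1, h2⟩
  unfold LtP at h1 h2
  simp only at h1 h2
  omega

lemma no_pred {σ : List ℕ} (hσ : σ ∈ STree) : ¬ ∃ d, Adj ValidE LtE d (σ, 1, 0) := by
  rintro ⟨w, h1, _, h3, h4⟩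
  rcases h3 with h | ⟨h, h'⟩
  · refine h4 ⟨(σ, 0, 0), ⟨hσ, by simp, by simp⟩, Or.inl h, ?_⟩
    rw [ltE_same]; simp [LtP]
  · obtain ⟨w1, t, j⟩ := w
    simp only at h
    subst h
    unfold LtP at h'
    simp only at h'
    have ht : t = 0 := by omega
    subst ht
    refine h4 ⟨(w1, 0, j + 1), ⟨hσ, by simp, by simp⟩, ?_, ?_⟩
    · rw [ltE_same]; simp [LtP]
    · rw [ltE_same]; simp [LtP]

lemma no_succ {σ : List ℕ} (hσ : σ ∈ STree) :
    ¬ ∃ d, Adj ValidE LtE (σ, 1, Encodable.encode σ) d := by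
  rintro ⟨w, _, h1, h3, h4⟩
  rcases h3 with h | ⟨h, h'⟩
  · refine h4 ⟨(σ, 2, 0), ⟨hσ, by simp, by simp⟩, ?_, Or.inl h⟩
    rw [ltE_same]; simp [LtP]
  · obtain ⟨w1, t, j⟩ := w
    simp only at h
    subst h
    have hv1 : t ≤ 2 := h1.2.1
    have hv2 : t = 1 → j ≤ Encodable.encode σ := h1.2.2
    unfold LtP at h'
    simp only at h'
    have ht : t = 2 := by omega
    subst ht
    refine h4 ⟨(σ, 2, j + 1), ⟨hσ, by simp, by simp⟩, ?_, ?_⟩
    · rw [ltE_same]; simp [LtP]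
    · rw [ltE_same]; simp [LtP]

lemma adj_succ_unique {a b c : E} (h1 : Adj ValidE LtE a b) (h2 : Adj ValidE LtE a c) :
    b = c := by
  by_contra hne
  rcases ltE_total hne with h | h
  · exact h2.2.2.2 ⟨b, h1.2.1, h1.2.2.1, h⟩
  · exact h1.2.2.2 ⟨c, h2.2.1, h2.2.2.1, h⟩

/-- The finite blocks left of the cut code exactly the nodes left of the path. -/
lemma hasBlock_iff (n : ℕ) : HasBlock ValidE InAE LtE n ↔
    ∃ σ ∈ STree, LexLt (pad σ) (fun i => wit i + 1) ∧ Encodable.encode σ = n := by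
  constructor
  · rintro ⟨l, hl, hl1, hl2, hl3, hl4⟩
    have hget : ∀ i, i ≤ n → ∃ c, l[i]? = some c := fun i hi =>
      ⟨_, List.getElem?_eq_getElem (by omega)⟩
    obtain ⟨⟨σ, t, i⟩, hc⟩ := hget 0 (Nat.zero_le _)
    obtain ⟨hv, hA⟩ := hl1 0 _ hc
    have hσ : σ ∈ STree := hv.1
    have ht2 : t ≤ 2 := hv.2.1
    have hnp := hl3 _ hc
    have hcases : t = 0 ∨ t = 1 ∨ t = 2 := by omega
    rcases hcases with rfl | rfl | rfl
    · -- part 0: infinite block
      exfalso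
      have hall : ∀ j, j ≤ n → l[j]? = some (σ, 0, i + j) := by
        intro j
        induction j with
        | zero => intro _; simpa using hc
        | succ j ih =>
          intro hj
          obtain ⟨d, hd⟩ := hget (j + 1) hj
          have h5 := hl2 j _ d (ih (by omega)) hd
          rw [hd, adj_succ_unique h5 (adj_part0 hσ (i + j))]
          rfl
      exact hl4 _ (hall n le_rfl) ⟨_, adj_part0 hσ (i + n)⟩
    · -- part 1
      have hi0 : i = 0 := by
        by_contra hi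
        obtain ⟨i, rfl⟩ := Nat.exists_eq_succ_of_ne_zero hi
        exact hnp ⟨_, adj_part1 hσ (i := i) (hv.2.2 rfl)⟩
      subst hi0
      have hall : ∀ j, j ≤ n → j ≤ Encodable.encode σ → l[j]? = some (σ, 1, j) := by
        intro j
        induction j with
        | zero => intro _ _; exact hc
        | succ j ih =>
          intro hj hj2
          obtain ⟨d, hd⟩ := hget (j + 1) hj
          have h5 := hl2 j _ d (ih (by omega) (by omega)) hd
          rw [hd, adj_succ_unique h5 (adj_part1 hσ hj2)]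
      refine ⟨σ, hσ, hA, ?_⟩
      rcases lt_trichotomy n (Encodable.encode σ) with h | h | h
      · exact absurd ⟨_, adj_part1 hσ (i := n) h⟩ (hl4 _ (hall n le_rfl h.le))
      · exact h.symm
      · exfalso
        obtain ⟨d, hd⟩ := hget (Encodable.encode σ + 1) h
        exact no_succ hσ ⟨d, hl2 _ _ d (hall _ h.le le_rfl) hd⟩
    · exfalso
      exact hnp ⟨_, adj_part2 hσ i⟩
  · rintro ⟨σ, hσ, hA, rfl⟩
    refine ⟨(List.range (Encodable.encode σ + 1)).map fun i => (σ, 1, i), by simp, ?_, ?_, ?_, ?_⟩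
    · intro i c hc
      simp only [List.getElem?_map, Option.map_eq_some_iff] at hc
      obtain ⟨j, hj, rfl⟩ := hc
      rw [List.getElem?_eq_some_iff] at hj
      obtain ⟨hj1, hj2⟩ := hj
      simp only [List.getElem_range] at hj2
      subst hj2
      simp only [List.length_range] at hj1
      exact ⟨⟨hσ, by simp, fun _ => Nat.lt_succ_iff.1 hj1⟩, hA⟩
    · intro i c d hc hd
      simp only [List.getElem?_map, Option.map_eq_some_iff] at hc hd
      obtain ⟨j, hj, rfl⟩ := hc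
      obtain ⟨k, hk, rfl⟩ := hd
      rw [List.getElem?_eq_some_iff] at hj hk
      obtain ⟨hj1, hj2⟩ := hj
      obtain ⟨hk1, hk2⟩ := hk
      simp only [List.getElem_range] at hj2 hk2
      subst hj2 hk2
      simp only [List.length_range] at hk1
      exact adj_part1 hσ (Nat.lt_succ_iff.1 hk1)
    · intro c hc
      simp only [List.getElem?_map, Option.map_eq_some_iff] at hc
      obtain ⟨j, hj, rfl⟩ := hc
      rw [List.getElem?_eq_some_iff] at hj
      obtain ⟨_, hj2⟩ := hj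
      simp only [List.getElem_range] at hj2
      subst hj2
      exact no_pred hσ
    · intro c hc
      simp only [List.getElem?_map, Option.map_eq_some_iff] at hc
      obtain ⟨j, hj, rfl⟩ := hc
      rw [List.getElem?_eq_some_iff] at hj
      obtain ⟨_, hj2⟩ := hj
      simp only [List.getElem_range] at hj2
      subst hj2
      exact no_succ hσ

section Computability

open Encodable

lemma primrec_pad : Primrec₂ pad := by
  have h : Primrec fun p : List ℕ × ℕ => (p.1[p.2]?).elim 0 (fun v => v + 1) := by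
    have h1 : Primrec fun p : List ℕ × ℕ => p.1[p.2]? :=
      Primrec.list_getElem?.comp Primrec.fst Primrec.snd
    have h2 : Primrec₂ fun (p : List ℕ × ℕ) (v : ℕ) => v + 1 := Primrec.succ.comp Primrec.snd
    refine (Primrec.option_casesOn h1 (Primrec.const 0) h2).of_eq fun p => ?_
    cases p.1[p.2]? <;> rfl
  exact h

lemma lexLt_pad_iff (σ τ : List ℕ) : LexLt (pad σ) (pad τ) ↔
    ∃ n ∈ List.range τ.length, (∀ i ∈ List.range n, pad σ i = pad τ i) ∧ pad σ n < pad τ n := by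
  simp only [List.mem_range]
  constructor
  · rintro ⟨n, h1, h2⟩
    exact ⟨n, pad_pos_iff.1 (by omega), h1, h2⟩
  · rintro ⟨n, _, h1, h2⟩
    exact ⟨n, h1, h2⟩

lemma primrecPred_lexLt : PrimrecPred fun p : List ℕ × List ℕ => LexLt (pad p.1) (pad p.2) := by
  have hp1 : Primrec fun q : ℕ × List ℕ × List ℕ => pad q.2.1 q.1 :=
    primrec_pad.comp (Primrec.fst.comp Primrec.snd) Primrec.fst
  have hp2 : Primrec fun q : ℕ × List ℕ × List ℕ => pad q.2.2 q.1 :=
    primrec_pad.comp (Primrec.snd.comp Primrec.snd) Primrec.fst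
  have h1 : PrimrecRel fun (i : ℕ) (p : List ℕ × List ℕ) => pad p.1 i = pad p.2 i := by
    have h : PrimrecPred fun q : ℕ × List ℕ × List ℕ => pad q.2.1 q.1 = pad q.2.2 q.1 :=
      PrimrecRel.comp Primrec.eq hp1 hp2
    exact h
  have h2 : PrimrecPred fun q : ℕ × List ℕ × List ℕ =>
      ∀ i ∈ List.range q.1, pad q.2.1 i = pad q.2.2 i :=
    PrimrecRel.comp (PrimrecRel.forall_mem_list h1) (Primrec.list_range.comp Primrec.fst)
      Primrec.snd
  have h3 : PrimrecPred fun q : ℕ × List ℕ × List ℕ => pad q.2.1 q.1 < pad q.2.2 q.1 :=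
    PrimrecRel.comp Primrec.nat_lt hp1 hp2
  have h4 : PrimrecRel fun (n : ℕ) (p : List ℕ × List ℕ) =>
      (∀ i ∈ List.range n, pad p.1 i = pad p.2 i) ∧ pad p.1 n < pad p.2 n := by
    have h := h2.and h3
    exact h
  have h5 : PrimrecPred fun p : List ℕ × List ℕ => ∃ n ∈ List.range p.2.length,
      (∀ i ∈ List.range n, pad p.1 i = pad p.2 i) ∧ pad p.1 n < pad p.2 n :=
    PrimrecRel.comp (PrimrecRel.exists_mem_list h4)
      (Primrec.list_range.comp (Primrec.list_length.comp Primrec.snd)) Primrec.id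
  exact h5.of_eq fun p => (lexLt_pad_iff p.1 p.2).symm

lemma primrecPred_ltP : PrimrecPred fun p : (ℕ × ℕ) × (ℕ × ℕ) => LtP p.1 p.2 := by
  have a : Primrec fun p : (ℕ × ℕ) × (ℕ × ℕ) => p.1.1 := Primrec.fst.comp Primrec.fst
  have b : Primrec fun p : (ℕ × ℕ) × (ℕ × ℕ) => p.1.2 := Primrec.snd.comp Primrec.fst
  have c : Primrec fun p : (ℕ × ℕ) × (ℕ × ℕ) => p.2.1 := Primrec.fst.comp Primrec.snd
  have d : Primrec fun p : (ℕ × ℕ) × (ℕ × ℕ) => p.2.2 := Primrec.snd.comp Primrec.snd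
  have e2 : PrimrecPred fun p : (ℕ × ℕ) × (ℕ × ℕ) => p.1.1 = 2 :=
    PrimrecRel.comp Primrec.eq a (Primrec.const 2)
  unfold LtP
  refine PrimrecPred.or (PrimrecRel.comp Primrec.nat_lt a c)
    (PrimrecPred.and (PrimrecRel.comp Primrec.eq a c) (PrimrecPred.or ?_ ?_))
  · exact PrimrecPred.and e2.not (PrimrecRel.comp Primrec.nat_lt b d)
  · exact PrimrecPred.and e2 (PrimrecRel.comp Primrec.nat_lt d b)

lemma primrecPred_ltE : PrimrecPred fun p : E × E => LtE p.1 p.2 := by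
  unfold LtE
  refine PrimrecPred.or ?_ (PrimrecPred.and ?_ ?_)
  · exact primrecPred_lexLt.comp ((Primrec.fst.comp Primrec.fst).pair (Primrec.fst.comp Primrec.snd))
  · exact PrimrecRel.comp Primrec.eq (Primrec.fst.comp Primrec.fst) (Primrec.fst.comp Primrec.snd)
  · exact primrecPred_ltP.comp ((Primrec.snd.comp Primrec.fst).pair (Primrec.snd.comp Primrec.snd))

lemma primrecPred_validE : PrimrecPred fun e : E => ValidE e := by
  have a : Primrec fun e : E => e.1 := Primrec.fst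
  have b : Primrec fun e : E => e.2.1 := Primrec.fst.comp Primrec.snd
  have c : Primrec fun e : E => e.2.2 := Primrec.snd.comp Primrec.snd
  unfold ValidE
  refine PrimrecPred.and (primrecPred_sTree.comp a) (PrimrecPred.and ?_ ?_)
  · exact PrimrecRel.comp Primrec.nat_le b (Primrec.const 2)
  · exact primrecPred_imp (PrimrecRel.comp Primrec.eq b (Primrec.const 1))
      (PrimrecRel.comp Primrec.nat_le c (Primrec.encode.comp a))

/-- Decoding of naturals into elements. -/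
def dec (n : ℕ) : E := (decode (α := E) n).getD ([], 0, 0)

lemma primrec_dec : Primrec dec :=
  Primrec.option_getD.comp Primrec.decode (Primrec.const ([], 0, 0))

@[simp] lemma dec_encode (e : E) : dec (encode e) = e := by
  show (decode (α := E) (encode e)).getD ([], 0, 0) = e
  rw [Encodable.encodek]; rfl

/-- The domain of the computable order. -/
def DD : Set ℕ := {n | ValidE (dec n) ∧ encode (dec n) = n}

/-- The relation of the computable order. -/
def RR (n m : ℕ) : Prop := LtE (dec n) (dec m)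

lemma encode_mem_DD {e : E} (h : ValidE e) : encode e ∈ DD := by
  simp [DD, h]

lemma computable_DD : ComputablePred (fun n : ℕ => n ∈ DD) := by
  refine PrimrecPred.computablePred ?_
  refine PrimrecPred.and (primrecPred_validE.comp primrec_dec) ?_
  exact PrimrecRel.comp Primrec.eq (Primrec.encode.comp primrec_dec) Primrec.id

lemma computable_RR : ComputablePred (fun p : ℕ × ℕ => RR p.1 p.2) := by
  refine PrimrecPred.computablePred ?_
  exact primrecPred_ltE.comp ((primrec_dec.comp Primrec.fst).pair (primrec_dec.comp Primrec.snd))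

lemma RR_irrefl : ∀ x ∈ DD, ¬ RR x x := fun _ _ => ltE_irrefl _

lemma RR_trans : ∀ x ∈ DD, ∀ y ∈ DD, ∀ z ∈ DD, RR x y → RR y z → RR x z :=
  fun _ _ _ _ _ _ => ltE_trans

lemma RR_total : ∀ x ∈ DD, ∀ y ∈ DD, x ≠ y → RR x y ∨ RR y x := by
  intro x hx y hy hne
  refine ltE_total fun h => hne ?_
  rw [← hx.2, ← hy.2, h]

lemma RR_scattered : ¬ ∃ e : ℚ → ℕ, (∀ q, e q ∈ DD) ∧ ∀ q r : ℚ, q < r → RR (e q) (e r) := by
  rintro ⟨e, h1, h2⟩
  exact no_rat (g := fun q => dec (e q)) (fun q => (h1 q).1) h2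

end Computability

end Pool.Agent.Helper578
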