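import Pool.Agent.Helper578.Analysis

namespace Pool.Agent.Helper578

open Encodable

/-! ### The cut and its image in the tree -/

/-- The sequence at which the order is cut. -/
noncomputable def wcut (i : ℕ) : ℕ := wit i + 1

lemma inAE_iff (e : E) : InAE e ↔ LexLt (pad e.1) wcut := Iff.rfl

lemma pad_ne_wcut (σ : List ℕ) : pad σ ≠ wcut := by
  intro h
  have := congrFun h σ.length
  rw [pad_of_ge le_rfl] at this
  exact absurd this (Nat.succ_ne_zero _).symm

lemma cut_lt {a b : E} (ha : InAE a) (hb : ¬ InAE b) : LtE a b := by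
  rcases lexLt_total (pad_ne_wcut b.1) with h | h
  · exact absurd h hb
  · exact Or.inl (lexLt_trans ha h)

lemma nil_mem : ([] : List ℕ) ∈ STree := wit_path 0

lemma inAE_root : InAE (([] : List ℕ), 0, 0) :=
  ⟨0, fun _ h => absurd h (Nat.not_lt_zero _), by rw [pad_of_ge (by simp)]; exact Nat.succ_pos _⟩

lemma root_valid : ValidE (([] : List ℕ), 0, 0) := ⟨nil_mem, by simp, by simp⟩

section Tree

variable {T : Set (List Bool)} {φ : ℕ → ℕ → Bool}

/-- The supremum of the images of the elements to the left of the cut. -/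
noncomputable def supPre (φ : ℕ → ℕ → Bool) : ℕ → List Bool
  | 0 => []
  | n + 1 => supPre φ n ++ [by
      classical
      exact decide (∃ x ∈ DD, InAE (dec x) ∧ pre (φ x) n = supPre φ n ∧ φ x n = true)]

/-- The supremum path. -/
noncomputable def supz (φ : ℕ → ℕ → Bool) (n : ℕ) : Bool := by
  classical
  exact decide (∃ x ∈ DD, InAE (dec x) ∧ pre (φ x) n = supPre φ n ∧ φ x n = true)

lemma supPre_eq (φ : ℕ → ℕ → Bool) (n : ℕ) : supPre φ n = pre (supz φ) n := by
  induction n with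
  | zero => rfl
  | succ n ih => rw [pre_succ, ← ih]; rfl

lemma supz_true (φ : ℕ → ℕ → Bool) (n : ℕ) : supz φ n = true ↔
    ∃ x ∈ DD, InAE (dec x) ∧ pre (φ x) n = pre (supz φ) n ∧ φ x n = true := by
  classical
  rw [← supPre_eq]
  unfold supz
  rw [decide_eq_true_iff]

lemma supz_approx (φ : ℕ → ℕ → Bool) (n : ℕ) :
    ∃ x ∈ DD, InAE (dec x) ∧ pre (φ x) n = pre (supz φ) n := by
  induction n with
  | zero =>
    refine ⟨encode (([] : List ℕ), 0, 0), encode_mem_DD root_valid, ?_, rfl⟩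
    rw [dec_encode]; exact inAE_root
  | succ n ih =>
    rcases hz : supz φ n with _ | _
    · obtain ⟨x, hx, hA, hpre⟩ := ih
      refine ⟨x, hx, hA, ?_⟩
      rw [pre_succ, pre_succ, hpre, hz]
      rcases hφ : φ x n with _ | _
      · rfl
      · have := (supz_true φ n).2 ⟨x, hx, hA, hpre, hφ⟩
        rw [hz] at this
        exact absurd this Bool.false_ne_true
    · obtain ⟨x, hx, hA, hpre, hφ⟩ := (supz_true φ n).1 hz
      refine ⟨x, hx, hA, ?_⟩
      rw [pre_succ, pre_succ, hpre, hz, hφ]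

/-- Isolated paths. -/
def Iso (T : Set (List Bool)) (g : ℕ → Bool) : Prop :=
  IsPath T g ∧ ∃ σ : List Bool, pre g σ.length = σ ∧
    ∀ h : ℕ → Bool, IsPath T h → pre h σ.length = σ → h = g

lemma cut_iff (h1 : ∀ x ∈ DD, Iso T (φ x))
    (h3 : ∀ x ∈ DD, ∀ y ∈ DD, (RR x y ↔ BLt (φ x) (φ y))) {x : ℕ} (hx : x ∈ DD) :
    InAE (dec x) ↔ ¬ BLt (supz φ) (φ x) := by
  constructor
  · rintro hA ⟨n, hn, hn1, hn2⟩
    have := (supz_true φ n).2 ⟨x, hx, hA, pre_eq_pre.2 fun i hi => (hn i hi).symm, hn2⟩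
    rw [hn1] at this
    exact Bool.false_ne_true this
  · intro hz
    by_contra hA
    have hlt : ∀ y ∈ DD, InAE (dec y) → BLt (φ y) (φ x) := fun y hy hyA =>
      (h3 y hy x hx).1 (cut_lt hyA hA)
    by_cases heq : supz φ = φ x
    · obtain ⟨σ, hσ, huniq⟩ := (h1 x hx).2
      obtain ⟨y, hy, hyA, hpre⟩ := supz_approx φ σ.length
      have h5 : φ y = φ x := huniq _ (h1 y hy).1 (by rw [hpre, heq, hσ])
      have h6 := hlt y hy hyA
      rw [h5] at h6
      exact bLt_irrefl _ h6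
    · rcases bLt_total heq with h | h
      · exact hz h
      · obtain ⟨n, hn, hn1, hn2⟩ := h
        obtain ⟨y, hy, hyA, hpre, hφ⟩ := (supz_true φ n).1 hn2
        refine bLt_asymm (hlt y hy hyA) ⟨n, fun i hi => ?_, hn1, hφ⟩
        rw [hn i hi, pre_eq_pre.1 hpre i hi]

lemma supz_path (h1 : ∀ x ∈ DD, Iso T (φ x)) : IsPath T (supz φ) := by
  intro n
  obtain ⟨x, hx, _, hpre⟩ := supz_approx φ n
  rw [← hpre]; exact (h1 x hx).1 n

/-- The correspondence between nodes and elements. -/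
def Rep (T : Set (List Bool)) (φ : ℕ → ℕ → Bool) (ν : List Bool) (e : E) : Prop :=
  Node T ν ∧ ValidE e ∧ pre (φ (encode e)) ν.length = ν

lemma isPath_eq_of_ext (h1 : ∀ x ∈ DD, Iso T (φ x)) {ν : List Bool} {e : E}
    (hr : Rep T φ ν e) {g : ℕ → Bool} (hg : IsPath T g) (hgν : pre g ν.length = ν) :
    g = φ (encode e) :=
  node_unique hr.1 hg (h1 _ (encode_mem_DD hr.2.1)).1 hgν hr.2.2

lemma rep_left (hTp : ∀ σ τ : List Bool, σ ++ τ ∈ T → σ ∈ T)
    (hTe : ∀ σ ∈ T, ∃ b : Bool, σ ++ [b] ∈ T)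
    (h2 : ∀ g, Iso T g → ∃ x ∈ DD, φ x = g) {ν : List Bool} (hν : Node T ν) :
    ∃ e, Rep T φ ν e := by
  obtain ⟨g, hg, hgν⟩ := exists_path hTp hTe hν.1
  obtain ⟨x, hx, hxg⟩ := h2 g ⟨hg, ν, hgν, fun h hh hhν => node_unique hν hh hg hhν hgν⟩
  refine ⟨dec x, hν, hx.1, ?_⟩
  rw [hx.2, hxg, hgν]

lemma rep_right (hTp : ∀ σ τ : List Bool, σ ++ τ ∈ T → σ ∈ T)
    (hTe : ∀ σ ∈ T, ∃ b : Bool, σ ++ [b] ∈ T)
    (h1 : ∀ x ∈ DD, Iso T (φ x)) {e : E} (he : ValidE e) : ∃ ν, Rep T φ ν e := by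
  obtain ⟨hpath, σ, hσ, huniq⟩ := h1 _ (encode_mem_DD he)
  refine ⟨σ, ⟨?_, ?_⟩, he, hσ⟩
  · rw [← hσ]; exact hpath _
  · rintro τ ⟨hf, ht⟩
    obtain ⟨g, hg, hg2⟩ := exists_path hTp hTe hf
    obtain ⟨h, hh, hh2⟩ := exists_path hTp hTe ht
    have e1 : g = φ (encode e) := huniq g hg (by
      rw [List.append_assoc] at hg2
      exact pre_prefix hg2)
    have e2 : h = φ (encode e) := huniq h hh (by
      rw [List.append_assoc] at hh2
      exact pre_prefix hh2)
    have e3 := (pre_split (τ := []) hg2).2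
    have e4 := (pre_split (τ := []) hh2).2
    rw [e1] at e3
    rw [e2, e3] at e4
    exact Bool.false_ne_true e4

lemma rep_lt (hTp : ∀ σ τ : List Bool, σ ++ τ ∈ T → σ ∈ T)
    (hTe : ∀ σ ∈ T, ∃ b : Bool, σ ++ [b] ∈ T)
    (h1 : ∀ x ∈ DD, Iso T (φ x)) (h3 : ∀ x ∈ DD, ∀ y ∈ DD, (RR x y ↔ BLt (φ x) (φ y)))
    {ν μ : List Bool} {e f : E} (he : Rep T φ ν e) (hf : Rep T φ μ f) :
    LT T ν μ ↔ LtE e f := by
  have key : RR (encode e) (encode f) ↔ LtE e f := by
    unfold RR; rw [dec_encode, dec_encode]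
  rw [← key, h3 _ (encode_mem_DD he.2.1) _ (encode_mem_DD hf.2.1)]
  constructor
  · rintro ⟨σ', τ', hσ, hτ, ρ, a, b, hea, heb⟩
    obtain ⟨g, hg, hg2⟩ := exists_path hTp hTe hσ
    obtain ⟨h, hh, hh2⟩ := exists_path hTp hTe hτ
    have e1 := isPath_eq_of_ext h1 he hg (pre_prefix hg2)
    have e2 := isPath_eq_of_ext h1 hf hh (pre_prefix hh2)
    obtain ⟨g1, g2⟩ := pre_split (hg2.trans hea)
    obtain ⟨k1, k2⟩ := pre_split (hh2.trans heb)
    rw [← e1, ← e2]
    exact ⟨ρ.length, pre_eq_pre.1 (g1.trans k1.symm), g2, k2⟩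
  · rintro ⟨n, hn, hn1, hn2⟩
    set g := φ (encode e) with hg
    set h := φ (encode f) with hh
    have hle1 : ν.length ≤ max (n + 1) (max ν.length μ.length) := by omega
    have hle2 : μ.length ≤ max (n + 1) (max ν.length μ.length) := by omega
    have hlt : n < max (n + 1) (max ν.length μ.length) := by omega
    set m := max (n + 1) (max ν.length μ.length) with hm
    obtain ⟨a, ha⟩ := pre_cons_drop g hlt
    obtain ⟨b, hb⟩ := pre_cons_drop h hlt
    refine ⟨(pre g m).drop ν.length, (pre h m).drop μ.length, ?_, ?_, pre g n, a, b, ?_, ?_⟩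
    · rw [pre_append_drop he.2.2 hle1]; exact (h1 _ (encode_mem_DD he.2.1)).1 _
    · rw [pre_append_drop hf.2.2 hle2]; exact (h1 _ (encode_mem_DD hf.2.1)).1 _
    · rw [pre_append_drop he.2.2 hle1, ha, hn1]
    · rw [pre_append_drop hf.2.2 hle2, hb, hn2, pre_eq_pre.2 hn]

lemma rep_inA (hTp : ∀ σ τ : List Bool, σ ++ τ ∈ T → σ ∈ T)
    (hTe : ∀ σ ∈ T, ∃ b : Bool, σ ++ [b] ∈ T)
    (h1 : ∀ x ∈ DD, Iso T (φ x)) (h3 : ∀ x ∈ DD, ∀ y ∈ DD, (RR x y ↔ BLt (φ x) (φ y)))
    {ν : List Bool} {e : E} (he : Rep T φ ν e) :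
    InAN T (supz φ) ν ↔ InAE e := by
  have h5 := cut_iff h1 h3 (encode_mem_DD he.2.1)
  rw [dec_encode] at h5
  rw [h5]
  refine not_congr ?_
  constructor
  · rintro ⟨σ', ρ, a, hσ, hρ, hz, hz2⟩
    obtain ⟨g, hg, hg2⟩ := exists_path hTp hTe hσ
    have e1 := isPath_eq_of_ext h1 he hg (pre_prefix hg2)
    obtain ⟨g1, g2⟩ := pre_split (hg2.trans hρ)
    rw [← e1]
    refine ⟨ρ.length, fun i hi => ?_, hz2, g2⟩
    refine hz i (g i) ?_
    have := pre_getElem? g hi
    rwa [g1] at this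
  · rintro ⟨n, hn, hn1, hn2⟩
    set g := φ (encode e) with hg
    have hle1 : ν.length ≤ max (n + 1) ν.length := by omega
    have hlt : n < max (n + 1) ν.length := by omega
    set m := max (n + 1) ν.length with hm
    obtain ⟨a, ha⟩ := pre_cons_drop g hlt
    refine ⟨(pre g m).drop ν.length, pre g n, a, ?_, ?_, ?_, ?_⟩
    · rw [pre_append_drop he.2.2 hle1]; exact (h1 _ (encode_mem_DD he.2.1)).1 _
    · rw [pre_append_drop he.2.2 hle1, ha, hn2]
    · intro i b hib
      have hi : i < n := by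
        by_contra hcon
        rw [List.getElem?_eq_none (by simp; omega)] at hib
        exact absurd hib (by simp)
      rw [pre_getElem? g hi] at hib
      rw [hn i hi]
      exact Option.some.inj hib
    · rw [pre_length]; exact hn1

lemma blocks_iff (hTp : ∀ σ τ : List Bool, σ ++ τ ∈ T → σ ∈ T)
    (hTe : ∀ σ ∈ T, ∃ b : Bool, σ ++ [b] ∈ T)
    (h1 : ∀ x ∈ DD, Iso T (φ x)) (h2 : ∀ g, Iso T g → ∃ x ∈ DD, φ x = g)
    (h3 : ∀ x ∈ DD, ∀ y ∈ DD, (RR x y ↔ BLt (φ x) (φ y))) (n : ℕ) :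
    HasBlock (Node T) (InAN T (supz φ)) (LT T) n ↔
      ∃ σ ∈ STree, LexLt (pad σ) (fun i => wit i + 1) ∧ encode σ = n := by
  rw [← hasBlock_iff]
  constructor
  · refine hasBlock_transfer (Rep := Rep T φ) ?_ ?_ ?_ ?_
    · exact fun c hc => rep_left hTp hTe h2 hc
    · exact fun x hx => rep_right hTp hTe h1 hx
    · exact fun c x hr => ⟨hr.1, hr.2.1, rep_inA hTp hTe h1 h3 hr⟩
    · exact fun c x d y hc hd => rep_lt hTp hTe h1 h3 hc hd
  · refine hasBlock_transfer (Rep := fun x c => Rep T φ c x) ?_ ?_ ?_ ?_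
    · exact fun x hx => rep_right hTp hTe h1 hx
    · exact fun c hc => rep_left hTp hTe h2 hc
    · exact fun x c hr => ⟨hr.2.1, hr.1, (rep_inA hTp hTe h1 h3 hr).symm⟩
    · exact fun x c y d hc hd => (rep_lt hTp hTe h1 h3 hc hd).symm

end Tree

/-! ### From the blocks to arithmetical truth -/

lemma prefix_iff (τ : List ℕ) : pre wit τ.length = τ ↔
    (τ ∈ STree ∧ LexLt (pad τ) wcut) ∧
      ∀ τ' : List ℕ, (∃ n, (∀ i < n, pad τ i = pad τ' i) ∧ 0 < pad τ n ∧ pad τ n < pad τ' n) →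
        ¬ (τ' ∈ STree ∧ LexLt (pad τ') wcut) := by
  constructor
  · intro h
    have hpad : ∀ i < τ.length, pad τ i = wcut i := by
      intro i hi
      have := pre_getElem? wit hi
      rw [h] at this
      unfold pad
      rw [this]; rfl
    refine ⟨⟨by rw [← h]; exact wit_path _, ⟨τ.length, hpad, ?_⟩⟩, ?_⟩
    · rw [pad_of_ge le_rfl]; exact Nat.succ_pos _
    · rintro τ' ⟨n, hn, hn1, hn2⟩ ⟨_, hlt⟩
      have hnl : n < τ.length := pad_pos_iff.1 hn1
      refine lexLt_asymm hlt ⟨n, fun i hi => ?_, ?_⟩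
      · rw [← hn i hi, hpad i (hi.trans hnl)]
      · rw [← hpad n hnl]; exact hn2
  · rintro ⟨⟨_, n, hn, hn1⟩, hall⟩
    have hle : τ.length ≤ n := by
      by_contra hcon
      push Not at hcon
      refine hall (pre wit (n + 1)) ⟨n, fun i hi => ?_, pad_pos_iff.2 hcon, ?_⟩ ⟨wit_path _, ?_⟩
      · rw [hn i hi]; unfold pad; rw [pre_getElem? wit (by omega)]; rfl
      · have : pad (pre wit (n + 1)) n = wcut n := by
          unfold pad; rw [pre_getElem? wit (by omega)]; rfl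
        rw [this]; exact hn1
      · refine ⟨n + 1, fun i hi => ?_, ?_⟩
        · unfold pad; rw [pre_getElem? wit hi]; rfl
        · rw [pad_of_ge (by simp)]; exact Nat.succ_pos _
    refine List.ext_getElem? fun i => ?_
    by_cases hi : i < τ.length
    · rw [pre_getElem? wit hi]
      have h5 := hn i (by omega)
      rw [pad_of_lt hi] at h5
      rw [List.getElem?_eq_getElem hi]
      have : τ[i] = wit i := Nat.succ.inj h5
      rw [this]
    · rw [List.getElem?_eq_none (by simp; omega), List.getElem?_eq_none (by omega)]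

lemma arith_mem_list_iff {P : ℕ → Prop} (hP : Arith P)
    (h : ∀ n, P n ↔ ∃ σ ∈ STree, LexLt (pad σ) (fun i => wit i + 1) ∧ encode σ = n) : False := by
  have hpadc : Computable₂ pad := primrec_pad.to_comp
  -- the nodes left of the cut
  have h1 : Arith (fun τ : List ℕ => τ ∈ STree ∧ LexLt (pad τ) wcut) := by
    refine Arith.congr (fun τ => ?_) (hP.comp (g := fun τ : List ℕ => encode τ) Computable.encode)
    rw [h]
    constructor
    · rintro ⟨σ, hσ, hσ2, he⟩
      rw [← encode_injective he]; exact ⟨hσ, hσ2⟩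
    · rintro ⟨hσ, hσ2⟩
      exact ⟨τ, hσ, hσ2, rfl⟩
  have hlt : Arith (fun p : ℕ × ℕ => p.1 < p.2) :=
    arith_of_primrec (PrimrecRel.comp Primrec.nat_lt Primrec.fst Primrec.snd)
  have h2 : Arith (fun p : List ℕ × List ℕ => ∃ n, (∀ i < n, pad p.1 i = pad p.2 i) ∧
      0 < pad p.1 n ∧ pad p.1 n < pad p.2 n) := by
    refine Arith.ex (R := fun q : (List ℕ × List ℕ) × ℕ => (∀ i < q.2, pad q.1.1 i = pad q.1.2 i) ∧
      0 < pad q.1.1 q.2 ∧ pad q.1.1 q.2 < pad q.1.2 q.2) ?_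
    have c1 : Computable (fun q : (List ℕ × List ℕ) × ℕ => pad q.1.1 q.2) :=
      hpadc.comp (Computable.fst.comp Computable.fst) Computable.snd
    have c2 : Computable (fun q : (List ℕ × List ℕ) × ℕ => pad q.1.2 q.2) :=
      hpadc.comp (Computable.snd.comp Computable.fst) Computable.snd
    refine Arith.and ?_ (Arith.and ?_ ?_)
    · refine Arith.all (R := fun q : ((List ℕ × List ℕ) × ℕ) × ℕ => q.2 < q.1.2 →
        pad q.1.1.1 q.2 = pad q.1.1.2 q.2) ?_
      refine Arith.imp (hlt.comp (Computable.snd.pair (Computable.snd.comp Computable.fst)))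
        (arith_eq (hpadc.comp ?_ Computable.snd) (hpadc.comp ?_ Computable.snd))
      · exact Computable.fst.comp (Computable.fst.comp Computable.fst)
      · exact Computable.snd.comp (Computable.fst.comp Computable.fst)
    · exact hlt.comp ((Computable.const 0).pair c1)
    · exact hlt.comp (c1.pair c2)
  -- the prefixes of the path
  have h3 : Arith (fun τ : List ℕ => pre wit τ.length = τ) := by
    refine Arith.congr (fun τ => (prefix_iff τ).symm) ?_
    refine h1.and ?_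
    refine Arith.all (R := fun p : List ℕ × List ℕ =>
      (∃ n, (∀ i < n, pad p.1 i = pad p.2 i) ∧ 0 < pad p.1 n ∧ pad p.1 n < pad p.2 n) →
        ¬ (p.2 ∈ STree ∧ LexLt (pad p.2) wcut)) ?_
    exact h2.imp (Arith.not (h1.comp Computable.snd))
  -- the values of the path
  have h4 : Arith (fun i : ℕ => wit i ≠ 0) := by
    refine Arith.congr (P := fun i => ∃ τ : List ℕ, pre wit τ.length = τ ∧
      ∃ v, τ[i]? = some v ∧ v ≠ 0) (fun i => ?_) ?_
    · constructor
      · rintro ⟨τ, hτ, v, hv, hv0⟩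
        have hi : i < τ.length := by
          by_contra hcon
          rw [List.getElem?_eq_none (by omega)] at hv
          exact absurd hv (by simp)
        have := pre_getElem? wit hi
        rw [hτ, hv] at this
        rw [← Option.some.inj this]; exact hv0
      · intro hi
        exact ⟨pre wit (i + 1), by simp, wit i, pre_getElem? wit (Nat.lt_succ_self i), hi⟩
    · refine Arith.ex (R := fun p : ℕ × List ℕ => pre wit p.2.length = p.2 ∧
        ∃ v, p.2[p.1]? = some v ∧ v ≠ 0) ?_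
      refine Arith.and (h3.comp (g := fun p : ℕ × List ℕ => p.2) Computable.snd) ?_
      refine Arith.ex (R := fun p : (ℕ × List ℕ) × ℕ => p.1.2[p.1.1]? = some p.2 ∧ p.2 ≠ 0) ?_
      refine Arith.and (arith_eq ?_ (Computable.option_some.comp Computable.snd))
        (Arith.not (arith_eq Computable.snd (Computable.const 0)))
      exact (Primrec.list_getElem?.comp (Primrec.snd.comp Primrec.fst)
        (Primrec.fst.comp Primrec.fst)).to_comp
  -- contradiction with undefinability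
  refine not_arith_tr (Arith.congr (fun p => wit_ne_zero p.1 p.2.1 p.2.2)
    (h4.comp (g := fun p : ℕ × ℕ × ℕ => idx p.1 p.2.1 p.2.2) ?_))
  unfold idx
  exact (Primrec₂.natPair.comp Primrec.fst (Primrec₂.natPair.comp
    (Primrec.fst.comp Primrec.snd) (Primrec.snd.comp Primrec.snd))).to_comp

theorem main (T : Set (List Bool)) (hT : ComputablePred (fun σ : List Bool => σ ∈ T))
    (hTp : ∀ σ τ : List Bool, σ ++ τ ∈ T → σ ∈ T)
    (hTe : ∀ σ ∈ T, ∃ b : Bool, σ ++ [b] ∈ T)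
    (hTc : ∀ f : ℕ → Bool, IsPath T f → Computable f)
    (φ : ℕ → ℕ → Bool) (h1 : ∀ x ∈ DD, Iso T (φ x))
    (h2 : ∀ g, Iso T g → ∃ x ∈ DD, φ x = g)
    (h3 : ∀ x ∈ DD, ∀ y ∈ DD, (RR x y ↔ BLt (φ x) (φ y))) : False := by
  have hz : Computable (supz φ) := hTc _ (supz_path h1)
  exact arith_mem_list_iff (arith_hasBlock (arith_node hT) (arith_InAN hT hz) (arith_LT hT))
    (blocks_iff hTp hTe h1 h2 h3)

end Pool.Agent.Helper578
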