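import Pool.Agent.Helper578.TreeF

namespace Pool.Agent.Helper578

/-- Lexicographic comparison of infinite sequences. -/
def LexLt (g h : ℕ → ℕ) : Prop := ∃ n, (∀ i < n, g i = h i) ∧ g n < h n

lemma lexLt_irrefl (g : ℕ → ℕ) : ¬ LexLt g g := fun ⟨_, _, h⟩ => lt_irrefl _ h

lemma lexLt_trans {g h k : ℕ → ℕ} (h1 : LexLt g h) (h2 : LexLt h k) : LexLt g k := by
  obtain ⟨n, hn, hn2⟩ := h1
  obtain ⟨m, hm, hm2⟩ := h2
  rcases lt_trichotomy n m with h | h | h
  · exact ⟨n, fun i hi => (hn i hi).trans (hm i (hi.trans h)), by rw [← hm n h]; exact hn2⟩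
  · subst h; exact ⟨n, fun i hi => (hn i hi).trans (hm i hi), hn2.trans hm2⟩
  · exact ⟨m, fun i hi => (hn i (hi.trans h)).trans (hm i hi), by rw [hn m h]; exact hm2⟩

lemma lexLt_total {g h : ℕ → ℕ} (hne : g ≠ h) : LexLt g h ∨ LexLt h g := by
  classical
  have hex : ∃ n, g n ≠ h n := by
    by_contra hcon
    push Not at hcon
    exact hne (funext hcon)
  have h1 := Nat.find_spec hex
  have h2 : ∀ i < Nat.find hex, g i = h i := fun i hi => not_not.1 (Nat.find_min hex hi)
  rcases lt_or_gt_of_ne h1 with h3 | h3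
  · exact Or.inl ⟨_, h2, h3⟩
  · exact Or.inr ⟨_, fun i hi => (h2 i hi).symm, h3⟩

lemma lexLt_asymm {g h : ℕ → ℕ} (h1 : LexLt g h) : ¬ LexLt h g := fun h2 =>
  lexLt_irrefl g (lexLt_trans h1 h2)

/-- If two sequences agree below `n` and a third lies weakly between them, then it also
agrees with them below `n`. -/
lemma lex_between {a b c : ℕ → ℕ} {n : ℕ} (hac : ∀ i < n, a i = c i) (hab : ¬ LexLt b a)
    (hbc : ¬ LexLt c b) : ∀ i < n, b i = a i := by
  intro i
  induction i using Nat.strong_induction_on with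
  | _ i ih =>
    intro hi
    have h1 : ∀ k < i, b k = a k := fun k hk => ih k hk (hk.trans hi)
    rcases lt_trichotomy (b i) (a i) with h | h | h
    · exact absurd ⟨i, h1, h⟩ hab
    · exact h
    · refine absurd ⟨i, fun k hk => ?_, ?_⟩ hbc
      · rw [← hac k (hk.trans hi), h1 k hk]
      · rw [← hac i hi]; exact h

/-- The infinite sequence attached to a finite one (entries shifted by one, padded by zeros). -/
def pad (σ : List ℕ) (k : ℕ) : ℕ := (σ[k]?).elim 0 (fun v => v + 1)

lemma pad_of_lt {σ : List ℕ} {k : ℕ} (h : k < σ.length) : pad σ k = σ[k] + 1 := by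
  simp [pad, h]

lemma pad_of_ge {σ : List ℕ} {k : ℕ} (h : σ.length ≤ k) : pad σ k = 0 := by
  simp [pad, h]

lemma pad_pos_iff {σ : List ℕ} {k : ℕ} : 0 < pad σ k ↔ k < σ.length := by
  constructor
  · intro h
    by_contra hcon
    rw [pad_of_ge (not_lt.1 hcon)] at h
    exact lt_irrefl _ h
  · intro h; rw [pad_of_lt h]; exact Nat.succ_pos _

lemma pad_injective : Function.Injective pad := by
  intro σ τ h
  refine List.ext_getElem? fun k => ?_
  have hk : pad σ k = pad τ k := congrFun h k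
  unfold pad at hk
  rcases hσ : σ[k]? with _ | v <;> rcases hτ : τ[k]? with _ | w <;>
    simp [hσ, hτ] at hk ⊢
  exact hk

lemma take_eq_of_pad {σ τ : List ℕ} {n : ℕ} (h : ∀ i < n, pad σ i = pad τ i) :
    σ.take n = τ.take n := by
  refine List.ext_getElem? fun k => ?_
  by_cases hk : k < n
  · rw [List.getElem?_take_of_lt hk, List.getElem?_take_of_lt hk]
    have hk' := h k hk
    unfold pad at hk'
    rcases hσ : σ[k]? with _ | v <;> rcases hτ : τ[k]? with _ | w <;>
      simp [hσ, hτ] at hk' ⊢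
    exact hk'
  · push Not at hk
    rw [List.getElem?_eq_none (by simp; omega), List.getElem?_eq_none (by simp; omega)]

/-- The elements of the order: triples (node, part, position). -/
abbrev E := List ℕ × ℕ × ℕ

/-- Membership in the domain. -/
def ValidE (e : E) : Prop :=
  e.1 ∈ STree ∧ e.2.1 ≤ 2 ∧ (e.2.1 = 1 → e.2.2 ≤ Encodable.encode e.1)

/-- The order inside one block `ω + (code + 1) + ω*`. -/
def LtP (p q : ℕ × ℕ) : Prop :=
  p.1 < q.1 ∨ (p.1 = q.1 ∧ ((p.1 ≠ 2 ∧ p.2 < q.2) ∨ (p.1 = 2 ∧ q.2 < p.2)))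

/-- The order relation. -/
def LtE (e e' : E) : Prop :=
  LexLt (pad e.1) (pad e'.1) ∨ (e.1 = e'.1 ∧ LtP e.2 e'.2)

lemma ltP_irrefl (p : ℕ × ℕ) : ¬ LtP p p := by
  unfold LtP; omega

lemma ltP_trans {p q r : ℕ × ℕ} (h1 : LtP p q) (h2 : LtP q r) : LtP p r := by
  unfold LtP at *; omega

lemma ltP_total {p q : ℕ × ℕ} (h : p ≠ q) : LtP p q ∨ LtP q p := by
  have h' : p.1 ≠ q.1 ∨ p.2 ≠ q.2 := by
    by_contra hcon
    push Not at hcon
    exact h (Prod.ext hcon.1 hcon.2)
  unfold LtP; omega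

lemma ltE_irrefl (e : E) : ¬ LtE e e := by
  rintro (h | ⟨_, h⟩)
  · exact lexLt_irrefl _ h
  · exact ltP_irrefl _ h

lemma ltE_trans {a b c : E} (h1 : LtE a b) (h2 : LtE b c) : LtE a c := by
  rcases h1 with h1 | ⟨h1, h1'⟩ <;> rcases h2 with h2 | ⟨h2, h2'⟩
  · exact Or.inl (lexLt_trans h1 h2)
  · exact Or.inl (by rw [← h2]; exact h1)
  · exact Or.inl (by rw [h1]; exact h2)
  · exact Or.inr ⟨h1.trans h2, ltP_trans h1' h2'⟩

lemma ltE_total {a b : E} (h : a ≠ b) : LtE a b ∨ LtE b a := by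
  by_cases h1 : a.1 = b.1
  · have h2 : a.2 ≠ b.2 := fun h2 => h (Prod.ext h1 h2)
    rcases ltP_total h2 with h3 | h3
    · exact Or.inl (Or.inr ⟨h1, h3⟩)
    · exact Or.inr (Or.inr ⟨h1.symm, h3⟩)
  · rcases lexLt_total (fun h2 => h1 (pad_injective h2)) with h3 | h3
    · exact Or.inl (Or.inl h3)
    · exact Or.inr (Or.inl h3)

lemma ltE_asymm {a b : E} (h : LtE a b) : ¬ LtE b a := fun h' => ltE_irrefl a (ltE_trans h h')

lemma ltE_weak {a b : E} (h : LtE a b) : ¬ LexLt (pad b.1) (pad a.1) := by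
  rcases h with h | ⟨h, _⟩
  · exact lexLt_asymm h
  · rw [h]; exact lexLt_irrefl _

section Scattered

variable {g : ℚ → E} (hv : ∀ q, ValidE (g q)) (hg : ∀ p q, p < q → LtE (g p) (g q))

include hg in
lemma weak_mono {p q : ℚ} (h : p ≤ q) : ¬ LexLt (pad (g q).1) (pad (g p).1) := by
  rcases h.eq_or_lt with rfl | h
  · exact lexLt_irrefl _
  · exact ltE_weak (hg _ _ h)

include hg in
/-- Agreement below `n` is convex. -/
lemma agree_convex {n : ℕ} {p q r : ℚ} (hpr : p ≤ r) (hrq : r ≤ q)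
    (h : ∀ i < n, pad (g p).1 i = pad (g q).1 i) : ∀ i < n, pad (g r).1 i = pad (g p).1 i :=
  lex_between h (weak_mono hg hpr) (weak_mono hg hrq)

include hv hg in
/-- A block contains no copy of an interval of the rationals. -/
lemma block_scattered {p q : ℚ} (hpq : p < q) : (g p).1 ≠ (g q).1 := by
  intro heq
  have hconst : ∀ r, p ≤ r → r ≤ q → (g r).1 = (g p).1 := by
    intro r h1 h2
    refine pad_injective (funext fun i => ?_)
    exact agree_convex hg (n := i + 1) h1 h2 (fun k _ => by rw [heq]) i (Nat.lt_succ_self i)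
  have hP : ∀ r s, p ≤ r → r < s → s ≤ q → LtP (g r).2 (g s).2 := by
    intro r s h1 h2 h3
    rcases hg r s h2 with h | ⟨_, h⟩
    · rw [hconst r h1 (h2.le.trans h3), hconst s (h1.trans h2.le) h3] at h
      exact absurd h (lexLt_irrefl _)
    · exact h
  -- parts are monotone
  have hmono : ∀ r s, p ≤ r → r ≤ s → s ≤ q → (g r).2.1 ≤ (g s).2.1 := by
    intro r s h1 h2 h3
    rcases h2.eq_or_lt with rfl | h2
    · exact le_rfl
    · have := hP r s h1 h2 h3
      unfold LtP at this; omega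
  -- find a subinterval with constant part
  obtain ⟨a, b, hpa, hab, hbq, hpart⟩ : ∃ a b, p ≤ a ∧ a < b ∧ b ≤ q ∧
      (g a).2.1 = (g b).2.1 := by
    have e0 : p < (p + (q - p) * (1 / 3)) := by nlinarith
    have e1 : (p + (q - p) * (1 / 3)) < (p + (q - p) * (2 / 3)) := by nlinarith
    have e2 : (p + (q - p) * (2 / 3)) < q := by nlinarith
    have m0 := hmono p (p + (q - p) * (1 / 3)) le_rfl e0.le (e1.trans e2).le
    have m1 := hmono (p + (q - p) * (1 / 3)) (p + (q - p) * (2 / 3)) e0.le e1.le e2.le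
    have m2 := hmono (p + (q - p) * (2 / 3)) q (e0.trans e1).le e2.le le_rfl
    have v3 := (hv q).2.1
    by_contra hcon
    push Not at hcon
    have c0 := hcon p (p + (q - p) * (1 / 3)) le_rfl e0 (e1.trans e2).le
    have c1 := hcon (p + (q - p) * (1 / 3)) (p + (q - p) * (2 / 3)) e0.le e1 e2.le
    have c2 := hcon (p + (q - p) * (2 / 3)) q (e0.trans e1).le e2 le_rfl
    omega
  have hpart' : ∀ r, a ≤ r → r ≤ b → (g r).2.1 = (g a).2.1 := by
    intro r h1 h2
    have := hmono a r hpa h1 (h2.trans hbq)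
    have := hmono r b (hpa.trans h1) h2 hbq
    omega
  have hbound : ∀ r, a ≤ r → r ≤ b → (g r).2.2 ≤ max (g a).2.2 (g b).2.2 := by
    intro r h1 h2
    rcases h1.eq_or_lt with rfl | h1'
    · exact le_max_left _ _
    rcases h2.eq_or_lt with rfl | h2'
    · exact le_max_right _ _
    have l1 := hP a r hpa h1' (h2.trans hbq)
    have l2 := hP r b (hpa.trans h1) h2' hbq
    have e1 := hpart' r h1 h2
    unfold LtP at l1 l2
    by_cases ht : (g a).2.1 = 2
    · have : (g r).2.2 < (g a).2.2 := by omega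
      exact this.le.trans (le_max_left _ _)
    · have : (g r).2.2 < (g b).2.2 := by omega
      exact this.le.trans (le_max_right _ _)
  have hinj : Set.InjOn (fun r => (g r).2.2) (Set.Icc a b) := by
    intro r hr s hs hrs
    by_contra hne
    simp only at hrs
    rcases lt_or_gt_of_ne hne with h | h
    · have := hP r s (hpa.trans hr.1) h (hs.2.trans hbq)
      unfold LtP at this
      have e1 := hpart' r hr.1 hr.2
      have e2 := hpart' s hs.1 hs.2
      omega
    · have := hP s r (hpa.trans hs.1) h (hr.2.trans hbq)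
      unfold LtP at this
      have e1 := hpart' r hr.1 hr.2
      have e2 := hpart' s hs.1 hs.2
      omega
  have hfin : (Set.Icc a b).Finite := by
    refine Set.Finite.of_injOn (t := Set.Iic (max (g a).2.2 (g b).2.2)) ?_ hinj
      (Set.finite_Iic _)
    intro r hr
    exact hbound r hr.1 hr.2
  exact (Set.Icc_infinite hab) hfin

include hv hg in
/-- Above any node rich for an interval there is a rich child. -/
lemma rich_step {n : ℕ} {p q : ℚ} (hpq : p < q)
    (h : ∀ i < n, pad (g p).1 i = pad (g q).1 i) (hn : n = 0 ∨ 0 < pad (g p).1 (n - 1)) :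
    ∃ p' q', p ≤ p' ∧ p' < q' ∧ q' ≤ q ∧ (∀ i < n + 1, pad (g p').1 i = pad (g q').1 i) ∧
      0 < pad (g p').1 n := by
  -- midpoint
  set x : ℚ := (p + q) / 2 with hx
  have hpx : p < x := by rw [hx]; linarith
  have hxq : x < q := by rw [hx]; linarith
  have hagree : ∀ r, p ≤ r → r ≤ q → ∀ i < n, pad (g r).1 i = pad (g p).1 i := fun r h1 h2 =>
    agree_convex hg h1 h2 h
  have hlenp : n ≤ (g p).1.length := by
    rcases hn with h0 | h0
    · omega
    · have := pad_pos_iff.1 h0; omega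
  -- every point strictly right of `p` is a proper extension
  have hpos : ∀ r, p < r → r ≤ q → 0 < pad (g r).1 n := by
    intro r h1 h2
    by_contra hcon
    have h0 : pad (g r).1 n = 0 := by omega
    have hle : (g r).1.length ≤ n := by
      by_contra hc
      push Not at hc
      have := pad_pos_iff.2 hc
      omega
    -- then `(g p).1 = (g r).1`
    have hpr0 : pad (g p).1 n = 0 := by
      by_contra hc
      have : LexLt (pad (g r).1) (pad (g p).1) :=
        ⟨n, hagree r h1.le h2, by omega⟩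
      exact weak_mono hg h1.le this
    have hlp : (g p).1.length ≤ n := by
      by_contra hc
      push Not at hc
      have := pad_pos_iff.2 hc
      omega
    have : (g p).1 = (g r).1 := by
      refine pad_injective (funext fun i => ?_)
      by_cases hi : i < n
      · exact (hagree r h1.le h2 i hi).symm
      · push Not at hi
        rw [pad_of_ge (hlp.trans hi), pad_of_ge (hle.trans hi)]
    exact block_scattered hv hg h1 this
  -- the child index is bounded on `[x, q]`
  have hbd : ∀ r ∈ Set.Icc x q, pad (g r).1 n ≤ pad (g q).1 n := by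
    rintro r ⟨h1, h2⟩
    by_contra hcon
    push Not at hcon
    have : LexLt (pad (g q).1) (pad (g r).1) := by
      refine ⟨n, fun i hi => ?_, hcon⟩
      rw [hagree r (hpx.le.trans h1) h2 i hi, h i hi]
    exact weak_mono hg h2 this
  obtain ⟨a, ha, b, hb, hab, heq⟩ : ∃ a ∈ Set.Icc x q, ∃ b ∈ Set.Icc x q, a ≠ b ∧
      pad (g a).1 n = pad (g b).1 n := by
    have hmaps : Set.MapsTo (fun r => pad (g r).1 n) (Set.Icc x q)
        (Set.Iic (pad (g q).1 n)) := fun r hr => hbd r hr
    exact Set.Infinite.exists_ne_map_eq_of_mapsTo (Set.Icc_infinite hxq) hmaps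
      (Set.finite_Iic _)
  have key : ∀ a b : ℚ, a ∈ Set.Icc x q → b ∈ Set.Icc x q → a < b →
      pad (g a).1 n = pad (g b).1 n → ∃ p' q', p ≤ p' ∧ p' < q' ∧ q' ≤ q ∧
      (∀ i < n + 1, pad (g p').1 i = pad (g q').1 i) ∧ 0 < pad (g p').1 n := by
    intro a b ha hb hab heq
    refine ⟨a, b, hpx.le.trans ha.1, hab, hb.2, ?_, hpos a (hpx.trans_le ha.1) ha.2⟩
    intro i hi
    rcases Nat.lt_succ_iff_lt_or_eq.1 hi with h1 | rfl
    · rw [hagree a (hpx.le.trans ha.1) ha.2 i h1, hagree b (hpx.le.trans hb.1) hb.2 i h1]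
    · exact heq
  rcases lt_or_gt_of_ne hab with h1 | h1
  · exact key a b ha hb h1 heq
  · exact key b a hb ha h1 heq.symm

include hv hg in
/-- Every interval of rationals produces the path `wit`. -/
lemma rich_path {p q : ℚ} (hpq : p < q) :
    ∀ n, ∃ r, p ≤ r ∧ r ≤ q ∧ ∀ i < n, pad (g r).1 i = wit i + 1 := by
  classical
  -- build the nested sequence of intervals
  let St := {u : ℕ × ℚ × ℚ // p ≤ u.2.1 ∧ u.2.1 < u.2.2 ∧ u.2.2 ≤ q ∧
    (∀ i < u.1, pad (g u.2.1).1 i = pad (g u.2.2).1 i) ∧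
    (u.1 = 0 ∨ 0 < pad (g u.2.1).1 (u.1 - 1))}
  have hstep : ∀ u : St, ∃ v : St, v.1.1 = u.1.1 + 1 ∧ u.1.2.1 ≤ v.1.2.1 ∧
      v.1.2.2 ≤ u.1.2.2 := by
    rintro ⟨⟨n, a, b⟩, h1, h2, h3, h4, h5⟩
    obtain ⟨a', b', c1, c2, c3, c4, c5⟩ := rich_step hv hg h2 h4 h5
    exact ⟨⟨⟨n + 1, a', b'⟩, h1.trans c1, c2, c3.trans h3, c4, Or.inr (by simpa using c5)⟩,
      rfl, c1, c3⟩
  choose nxt hn1 hn2 hn3 using hstep
  let s0 : St := ⟨⟨0, p, q⟩, le_rfl, hpq, le_rfl, fun i hi => absurd hi (Nat.not_lt_zero i),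
    Or.inl rfl⟩
  let s : ℕ → St := fun n => Nat.rec s0 (fun _ u => nxt u) n
  have hs : ∀ n, s (n + 1) = nxt (s n) := fun n => rfl
  have hs1 : ∀ n, (s n).1.1 = n := by
    intro n
    induction n with
    | zero => rfl
    | succ n ih => rw [hs, hn1, ih]
  have hmonoa : ∀ n m, n ≤ m → (s n).1.2.1 ≤ (s m).1.2.1 := by
    intro n m h
    induction m, h using Nat.le_induction with
    | base => exact le_rfl
    | succ m _ ih => rw [hs]; exact ih.trans (hn2 _)
  have hmonob : ∀ n m, n ≤ m → (s m).1.2.2 ≤ (s n).1.2.2 := by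
    intro n m h
    induction m, h using Nat.le_induction with
    | base => exact le_rfl
    | succ m _ ih => rw [hs]; exact (hn3 _).trans ih
  -- the limit function
  let f : ℕ → ℕ := fun i => pad (g (s (i + 1)).1.2.1).1 i - 1
  have hagree : ∀ n i, i < n → pad (g (s n).1.2.1).1 i = pad (g (s (i + 1)).1.2.1).1 i := by
    intro n i hi
    have h4 : ∀ k < i + 1, pad (g (s (i + 1)).1.2.1).1 k = pad (g (s (i + 1)).1.2.2).1 k :=
      fun k hk => (s (i + 1)).2.2.2.2.1 k (by
        have e := hs1 (i + 1)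
        omega)
    exact agree_convex hg (hmonoa (i + 1) n hi)
      ((s n).2.2.1.le.trans (hmonob (i + 1) n hi)) h4 i (Nat.lt_succ_self i)
  have hposi : ∀ i, 0 < pad (g (s (i + 1)).1.2.1).1 i := by
    intro i
    have e := hs1 (i + 1)
    have e' : (s (i + 1)).1.1 - 1 = i := by omega
    rcases (s (i + 1)).2.2.2.2.2 with h5 | h5
    · omega
    · have h6 : 0 < pad (g (s (i + 1)).1.2.1).1 ((s (i + 1)).1.1 - 1) := h5
      rwa [e'] at h6
  have hf : ∀ n i, i < n → pad (g (s n).1.2.1).1 i = f i + 1 := by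
    intro n i hi
    rw [hagree n i hi]
    have := hposi i
    simp only [f]; omega
  have hpath : ∀ n, pre f n ∈ STree := by
    intro n
    have hlen : n ≤ (g (s n).1.2.1).1.length := by
      rcases Nat.eq_zero_or_pos n with h0 | h0
      · omega
      · have h1 : 0 < pad (g (s n).1.2.1).1 (n - 1) := by
          rw [hf n (n - 1) (by omega)]; exact Nat.succ_pos _
        have := pad_pos_iff.1 h1
        omega
    have htake : (g (s n).1.2.1).1.take n = pre f n := by
      refine List.ext_getElem? fun k => ?_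
      by_cases hk : k < n
      · rw [List.getElem?_take_of_lt hk, pre_getElem? f hk]
        have h1 := hf n k hk
        rw [pad_of_lt (hk.trans_le hlen)] at h1
        rw [List.getElem?_eq_getElem (hk.trans_le hlen)]
        congr 1
        omega
      · push Not at hk
        rw [List.getElem?_eq_none (by simp; omega), List.getElem?_eq_none (by simp; omega)]
    rw [← htake]
    refine sTree_prefix (τ := (g (s n).1.2.1).1.drop n) ?_
    rw [List.take_append_drop]
    exact (hv _).1
  have hfw : f = wit := path_unique hpath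
  intro n
  refine ⟨(s n).1.2.1, (s n).2.1, (s n).2.2.1.le.trans (s n).2.2.2.1, fun i hi => ?_⟩
  rw [hf n i hi, hfw]

include hv hg in
/-- The order has no copy of the rationals. -/
lemma no_rat : False := by
  obtain ⟨n, hn⟩ : ∃ n, (g (3 / 2)).1.length < n := ⟨_, Nat.lt_succ_self _⟩
  obtain ⟨r, _, hr2, hr3⟩ := rich_path hv hg (p := 0) (q := 1) (by norm_num) n
  obtain ⟨s, hs1, _, hs3⟩ := rich_path hv hg (p := 2) (q := 3) (by norm_num) n
  have h1 := agree_convex hg (n := n) (p := r) (q := s) (r := 3 / 2)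
    (hr2.trans (by norm_num)) (le_trans (by norm_num) hs1)
    (fun i hi => by rw [hr3 i hi, hs3 i hi]) (g (3 / 2)).1.length hn
  rw [hr3 _ hn, pad_of_ge le_rfl] at h1
  omega

end Scattered

end Pool.Agent.Helper578
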