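import Pool.Agent.Helper578.Arith

namespace Pool.Agent.Helper578

open Nat.Partrec (Code)

/-- Coding of the triple `(e, j, x)`. -/
def idx (e j x : ℕ) : ℕ := Nat.pair e (Nat.pair j x)

lemma unpair_idx1 (e j x : ℕ) : (idx e j x).unpair.1 = e := by simp [idx]
lemma unpair_idx2 (e j x : ℕ) : (idx e j x).unpair.2.unpair.1 = j := by simp [idx]
lemma unpair_idx3 (e j x : ℕ) : (idx e j x).unpair.2.unpair.2 = x := by simp [idx]

lemma idx_surj (i : ℕ) : ∃ e j x, i = idx e j x :=
  ⟨i.unpair.1, i.unpair.2.unpair.1, i.unpair.2.unpair.2, by simp [idx]⟩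

open Classical in
/-- The least-witness function: `wit (e, j + 1, x) = a + 1` for the least witness `a` of
`Tr e (j+1) x`, and `0` if there is none. -/
noncomputable def wit (i : ℕ) : ℕ :=
  match i.unpair.2.unpair.1 with
  | 0 => if Base i.unpair.1 i.unpair.2.unpair.2 then 1 else 0
  | j + 1 =>
    if h : ∃ a, ¬ Tr i.unpair.1 j (Nat.pair i.unpair.2.unpair.2 a) then Nat.find h + 1 else 0

open Classical in
lemma wit_zero (e x : ℕ) : wit (idx e 0 x) = if Base e x then 1 else 0 := by
  unfold wit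
  simp [idx]

open Classical in
lemma wit_succ (e j x : ℕ) : wit (idx e (j + 1) x) =
    if h : ∃ a, ¬ Tr e j (Nat.pair x a) then Nat.find h + 1 else 0 := by
  unfold wit
  simp only [unpair_idx1, unpair_idx2, unpair_idx3]

lemma wit_ne_zero (e j x : ℕ) : wit (idx e j x) ≠ 0 ↔ Tr e j x := by
  classical
  cases j with
  | zero => rw [wit_zero]; simp [Tr]
  | succ j =>
    rw [wit_succ]
    by_cases h : ∃ a, ¬ Tr e j (Nat.pair x a)
    · rw [dif_pos h]; simp only [ne_eq, Nat.succ_ne_zero, not_false_eq_true, true_iff]; exact h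
    · rw [dif_neg h]; simp only [ne_eq, not_true_eq_false, false_iff]; exact h

/-- The local condition at index `i` with comparison index `a`, among indices below `n`. -/
def Cond (g : ℕ → ℕ) (n i a : ℕ) : Prop :=
  (i.unpair.2.unpair.1 = 0 →
    ((Base i.unpair.1 i.unpair.2.unpair.2 → g i = 1) ∧
      (¬ Base i.unpair.1 i.unpair.2.unpair.2 → g i = 0))) ∧
  (i.unpair.2.unpair.1 ≠ 0 →
    idx i.unpair.1 (i.unpair.2.unpair.1 - 1) (Nat.pair i.unpair.2.unpair.2 a) < n →
    ((g i = 0 → g (idx i.unpair.1 (i.unpair.2.unpair.1 - 1)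
        (Nat.pair i.unpair.2.unpair.2 a)) ≠ 0) ∧
     (g i = a + 1 → g (idx i.unpair.1 (i.unpair.2.unpair.1 - 1)
        (Nat.pair i.unpair.2.unpair.2 a)) = 0) ∧
     (a + 1 < g i → g (idx i.unpair.1 (i.unpair.2.unpair.1 - 1)
        (Nat.pair i.unpair.2.unpair.2 a)) ≠ 0)))

/-- The tree of finite sequences satisfying all local conditions. -/
def STree : Set (List ℕ) :=
  {σ | ∀ i < σ.length, ∀ a < σ.length, Cond (fun k => σ.getD k 0) σ.length i a}

lemma cond_wit (n i a : ℕ) : Cond wit n i a := by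
  classical
  obtain ⟨e, j, x, rfl⟩ := idx_surj i
  unfold Cond
  simp only [unpair_idx1, unpair_idx2, unpair_idx3]
  constructor
  · rintro rfl
    rw [wit_zero]
    constructor
    · intro h; rw [if_pos h]
    · intro h; rw [if_neg h]
  · intro hj _
    obtain ⟨j, rfl⟩ := Nat.exists_eq_succ_of_ne_zero hj
    simp only [Nat.succ_eq_add_one, Nat.add_sub_cancel]
    rw [wit_succ, wit_ne_zero]
    by_cases h : ∃ a, ¬ Tr e j (Nat.pair x a)
    · rw [dif_pos h]
      refine ⟨fun h0 => absurd h0 (Nat.succ_ne_zero _), ?_, ?_⟩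
      · intro h1
        have h2 : Nat.find h = a := by omega
        have h3 := Nat.find_spec h
        rw [h2] at h3
        by_contra h4
        exact h3 ((wit_ne_zero e j (Nat.pair x a)).1 h4)
      · intro h1
        have h2 : a < Nat.find h := by omega
        have h3 := Nat.find_min h h2
        exact not_not.1 h3
    · rw [dif_neg h]
      refine ⟨fun _ => ?_, fun h1 => absurd h1.symm (Nat.succ_ne_zero _),
        fun h1 => absurd h1 (Nat.not_lt_zero _)⟩
      by_contra h4
      exact h ⟨a, h4⟩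

/-- Initial segments of functions as lists. -/
def pre {β : Type} (g : ℕ → β) (n : ℕ) : List β := (List.range n).map g

@[simp] lemma pre_length {β : Type} (g : ℕ → β) (n : ℕ) : (pre g n).length = n := by simp [pre]

lemma pre_getElem? {β : Type} (g : ℕ → β) {n k : ℕ} (h : k < n) : (pre g n)[k]? = some (g k) := by
  simp [pre, h]

lemma pre_getD (g : ℕ → ℕ) {n k : ℕ} (h : k < n) : (pre g n).getD k 0 = g k := by
  rw [List.getD_eq_getElem?_getD, pre_getElem? g h]; rfl

lemma pre_succ {β : Type} (g : ℕ → β) (n : ℕ) : pre g (n + 1) = pre g n ++ [g n] := by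
  simp [pre, List.range_succ]

lemma mem_sTree_pre {g : ℕ → ℕ} {n : ℕ} : pre g n ∈ STree ↔
    ∀ i < n, ∀ a < n, Cond g n i a := by
  unfold STree
  simp only [Set.mem_ofPred_eq, pre_length]
  refine forall₄_congr fun i hi a _ => ?_
  unfold Cond
  beta_reduce
  rw [pre_getD g hi]
  constructor
  · rintro ⟨h1, h2⟩
    refine ⟨h1, fun h3 h4 => ?_⟩
    have := h2 h3 h4
    rwa [pre_getD g h4] at this
  · rintro ⟨h1, h2⟩
    refine ⟨h1, fun h3 h4 => ?_⟩
    have := h2 h3 h4
    rwa [pre_getD g h4]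

lemma wit_path (n : ℕ) : pre wit n ∈ STree := mem_sTree_pre.2 fun i _ a _ => cond_wit n i a

/-- `wit` is the only path of the tree. -/
lemma path_unique {g : ℕ → ℕ} (hg : ∀ n, pre g n ∈ STree) : g = wit := by
  classical
  have hc : ∀ e j x a, Cond g (idx e (j - 1) (Nat.pair x a) + 1 + idx e j x + 1 + a)
      (idx e j x) a := by
    intro e j x a
    exact mem_sTree_pre.1 (hg (idx e (j - 1) (Nat.pair x a) + 1 + idx e j x + 1 + a))
      (idx e j x) (by omega) a (by omega)
  have key : ∀ j e x, g (idx e j x) = wit (idx e j x) := by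
    intro j
    induction j with
    | zero =>
      intro e x
      have h := (hc e 0 x 0).1 (unpair_idx2 e 0 x)
      simp only [unpair_idx1, unpair_idx3] at h
      rw [wit_zero]
      by_cases hb : Base e x
      · rw [if_pos hb]; exact h.1 hb
      · rw [if_neg hb]; exact h.2 hb
    | succ j ih =>
      intro e x
      have h : ∀ a, (g (idx e (j + 1) x) = 0 → Tr e j (Nat.pair x a)) ∧
          (g (idx e (j + 1) x) = a + 1 → ¬ Tr e j (Nat.pair x a)) ∧
          (a + 1 < g (idx e (j + 1) x) → Tr e j (Nat.pair x a)) := by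
        intro a
        have h := (hc e (j + 1) x a).2 (by rw [unpair_idx2]; omega)
          (by simp only [unpair_idx1, unpair_idx2, unpair_idx3]; omega)
        simp only [unpair_idx1, unpair_idx2, unpair_idx3, Nat.add_sub_cancel, ih] at h
        refine ⟨fun h0 => (wit_ne_zero _ _ _).1 (h.1 h0), fun h0 h1 => ?_,
          fun h0 => (wit_ne_zero _ _ _).1 (h.2.2 h0)⟩
        exact (wit_ne_zero _ _ _).2 h1 (h.2.1 h0)
      rw [wit_succ]
      by_cases hex : ∃ a, ¬ Tr e j (Nat.pair x a)
      · rw [dif_pos hex]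
        rcases Nat.eq_zero_or_pos (g (idx e (j + 1) x)) with h0 | h0
        · obtain ⟨a, ha⟩ := hex
          exact absurd ((h a).1 h0) ha
        · obtain ⟨a, ha⟩ := Nat.exists_eq_succ_of_ne_zero h0.ne'
          have h1 := (h a).2.1 ha
          have h2 : Nat.find hex = a := by
            rw [Nat.find_eq_iff]
            refine ⟨h1, fun b hb => ?_⟩
            rw [not_not]
            exact (h b).2.2 (by omega)
          rw [h2, ha]
      · rw [dif_neg hex]
        rcases Nat.eq_zero_or_pos (g (idx e (j + 1) x)) with h0 | h0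
        · exact h0
        · obtain ⟨a, ha⟩ := Nat.exists_eq_succ_of_ne_zero h0.ne'
          exact absurd ⟨a, (h a).2.1 ha⟩ hex
  funext i
  obtain ⟨e, j, x, rfl⟩ := idx_surj i
  exact key j e x

lemma sTree_prefix {σ τ : List ℕ} (h : σ ++ τ ∈ STree) : σ ∈ STree := by
  intro i hi a ha
  have hlen : σ.length ≤ (σ ++ τ).length := by simp
  have h1 := h i (hi.trans_le hlen) a (ha.trans_le hlen)
  have hget : ∀ k < σ.length, (σ ++ τ).getD k 0 = σ.getD k 0 := by
    intro k hk
    rw [List.getD_eq_getElem?_getD, List.getD_eq_getElem?_getD, List.getElem?_append_left hk]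
  unfold Cond at h1 ⊢
  simp only [hget i hi] at h1
  refine ⟨h1.1, fun h3 h4 => ?_⟩
  have := h1.2 h3 (h4.trans_le hlen)
  rwa [hget _ h4] at this

section Computability

lemma primrecPred_base : PrimrecPred (fun p : ℕ × ℕ => Base p.1 p.2) := by
  have h0 : Primrec (fun p : ℕ × ℕ =>
      (((p.2.unpair.2, Denumerable.ofNat Code p.1), p.2.unpair.1) : (ℕ × Code) × ℕ)) :=
    Primrec.pair (Primrec.pair (Primrec.snd.comp (Primrec.unpair.comp Primrec.snd))
      ((Primrec.ofNat Code).comp Primrec.fst)) (Primrec.fst.comp (Primrec.unpair.comp Primrec.snd))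
  have h1 : Primrec (fun p : ℕ × ℕ =>
      (Denumerable.ofNat Code p.1).evaln p.2.unpair.2 p.2.unpair.1) :=
    Nat.Partrec.Code.primrec_evaln.comp h0
  have h2 : PrimrecPred (fun p : ℕ × ℕ =>
      (Denumerable.ofNat Code p.1).evaln p.2.unpair.2 p.2.unpair.1 = (none : Option ℕ)) :=
    PrimrecRel.comp (R := fun a b : Option ℕ => a = b) Primrec.eq h1 (Primrec.const none)
  exact h2

lemma primrec_idx {α : Type} [Primcodable α] {f g h : α → ℕ} (hf : Primrec f) (hg : Primrec g)
    (hh : Primrec h) : Primrec fun x => idx (f x) (g x) (h x) :=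
  Primrec₂.natPair.comp hf (Primrec₂.natPair.comp hg hh)

lemma primrecPred_imp {α : Type} [Primcodable α] {p q : α → Prop} (hp : PrimrecPred p)
    (hq : PrimrecPred q) : PrimrecPred fun x => p x → q x :=
  (hp.not.or hq).of_eq fun x => by tauto

lemma primrecPred_condList :
    PrimrecPred (fun p : (ℕ × ℕ) × List ℕ =>
      Cond (fun k => p.2.getD k 0) p.2.length p.1.1 p.1.2) := by
  have hi : Primrec fun p : (ℕ × ℕ) × List ℕ => p.1.1 := Primrec.fst.comp Primrec.fst
  have ha : Primrec fun p : (ℕ × ℕ) × List ℕ => p.1.2 := Primrec.snd.comp Primrec.fst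
  have hs : Primrec fun p : (ℕ × ℕ) × List ℕ => p.2 := Primrec.snd
  have he : Primrec fun p : (ℕ × ℕ) × List ℕ => p.1.1.unpair.1 :=
    Primrec.fst.comp (Primrec.unpair.comp hi)
  have hr : Primrec fun p : (ℕ × ℕ) × List ℕ => p.1.1.unpair.2 :=
    Primrec.snd.comp (Primrec.unpair.comp hi)
  have hj : Primrec fun p : (ℕ × ℕ) × List ℕ => p.1.1.unpair.2.unpair.1 :=
    Primrec.fst.comp (Primrec.unpair.comp hr)
  have hx : Primrec fun p : (ℕ × ℕ) × List ℕ => p.1.1.unpair.2.unpair.2 :=
    Primrec.snd.comp (Primrec.unpair.comp hr)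
  have hidx : Primrec fun p : (ℕ × ℕ) × List ℕ => idx p.1.1.unpair.1
      (p.1.1.unpair.2.unpair.1 - 1) (Nat.pair p.1.1.unpair.2.unpair.2 p.1.2) :=
    primrec_idx he (Primrec.nat_sub.comp hj (Primrec.const 1)) (Primrec₂.natPair.comp hx ha)
  have hgi : Primrec fun p : (ℕ × ℕ) × List ℕ => p.2.getD p.1.1 0 :=
    (Primrec.list_getD 0).comp hs hi
  have hgx : Primrec fun p : (ℕ × ℕ) × List ℕ => p.2.getD (idx p.1.1.unpair.1
      (p.1.1.unpair.2.unpair.1 - 1) (Nat.pair p.1.1.unpair.2.unpair.2 p.1.2)) 0 :=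
    (Primrec.list_getD 0).comp hs hidx
  have hbase : PrimrecPred fun p : (ℕ × ℕ) × List ℕ =>
      Base p.1.1.unpair.1 p.1.1.unpair.2.unpair.2 := primrecPred_base.comp (he.pair hx)
  have hj0 : PrimrecPred fun p : (ℕ × ℕ) × List ℕ => p.1.1.unpair.2.unpair.1 = 0 :=
    Primrec.eq.comp hj (Primrec.const 0)
  have hgxz : PrimrecPred fun p : (ℕ × ℕ) × List ℕ => p.2.getD (idx p.1.1.unpair.1
      (p.1.1.unpair.2.unpair.1 - 1) (Nat.pair p.1.1.unpair.2.unpair.2 p.1.2)) 0 = 0 :=
    Primrec.eq.comp hgx (Primrec.const 0)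
  unfold Cond
  refine PrimrecPred.and ?_ ?_
  · refine primrecPred_imp hj0 (PrimrecPred.and ?_ ?_)
    · exact primrecPred_imp hbase (Primrec.eq.comp hgi (Primrec.const 1))
    · exact primrecPred_imp hbase.not (Primrec.eq.comp hgi (Primrec.const 0))
  · refine primrecPred_imp hj0.not (primrecPred_imp ?_ (PrimrecPred.and ?_ (PrimrecPred.and ?_ ?_)))
    · exact Primrec.nat_lt.comp hidx (Primrec.list_length.comp hs)
    · exact primrecPred_imp (Primrec.eq.comp hgi (Primrec.const 0)) hgxz.not
    · exact primrecPred_imp (Primrec.eq.comp hgi (Primrec.succ.comp ha)) hgxz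
    · exact primrecPred_imp (Primrec.nat_lt.comp (Primrec.succ.comp ha) hgi) hgxz.not

lemma primrecPred_sTree : PrimrecPred (fun σ : List ℕ => σ ∈ STree) := by
  -- bounded quantifiers over `List.range`
  have h1 : PrimrecRel (fun (a : ℕ) (p : ℕ × List ℕ) =>
      Cond (fun k => p.2.getD k 0) p.2.length p.1 a) := by
    have h := PrimrecPred.comp (f := fun q : ℕ × ℕ × List ℕ => ((q.2.1, q.1), q.2.2))
      primrecPred_condList
      (((Primrec.fst.comp Primrec.snd).pair Primrec.fst).pair (Primrec.snd.comp Primrec.snd))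
    exact h
  have h2 : PrimrecRel (fun (i : ℕ) (σ : List ℕ) => ∀ a ∈ List.range σ.length,
      Cond (fun k => σ.getD k 0) σ.length i a) := by
    have h := PrimrecRel.comp (PrimrecRel.forall_mem_list h1)
      (f := fun q : ℕ × List ℕ => List.range q.2.length) (g := fun q : ℕ × List ℕ => q)
      (Primrec.list_range.comp (Primrec.list_length.comp Primrec.snd)) Primrec.id
    exact h
  have h4 : PrimrecPred (fun σ : List ℕ => ∀ i ∈ List.range σ.length,
      ∀ a ∈ List.range σ.length, Cond (fun k => σ.getD k 0) σ.length i a) :=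
    PrimrecRel.comp (PrimrecRel.forall_mem_list h2)
      (f := fun σ : List ℕ => List.range σ.length) (g := fun σ : List ℕ => σ)
      (Primrec.list_range.comp Primrec.list_length) Primrec.id
  refine h4.of_eq fun σ => ?_
  simp [STree]

end Computability

end Pool.Agent.Helper578
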